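import Mathlib
import Pool.Agent.Helper29.ETK.Sched

/-!
# E-T (MP_12a1af_nt), project T*: what is used about the function `kid` (one time, two close times)
-/

namespace Pool.Agent.ETS

open Pool.Agent.Helper29.ETK

/-- one time `t` -/
structure KidOK (c t : ℕ) : Prop where
  wb0 : 0 < wb c t
  wbt : wb c t ≤ t
  P : ∀ s g, s < wb c t → kid c t s = .P g → g ≤ s ∧ ∀ s', g ≤ s' → s' ≤ s → kid c t s' = .P g
  PT : ∀ s g b, s < wb c t → kid c t s = .PT g b → g ≤ b ∧ g ≤ s ∧ s < b + Wd c b ∧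
    b + Wd c b ≤ av c t ∧ av c t ≤ wb c t ∧
    (∀ s', g ≤ s' → s' < b + Wd c b → kid c t s' = .PT g b) ∧
    (∀ s', b + Wd c b ≤ s' → s' < av c t → kid c t s' = .R (av c t))
  R : ∀ s v, s < wb c t → kid c t s = .R v → s < v ∧ v ≤ wb c t ∧
    ∀ s', s ≤ s' → s' < v → kid c t s' = .R v
  RT : ∀ s v, s < wb c t → kid c t s = .RT v → s < v ∧ v ≤ wb c t ∧
    ∀ s', s ≤ s' → s' < v → kid c t s' = .RT v
  RTh : ∀ s v, s < wb c t → kid c t s = .RTh v → s < v ∧ v ≤ wb c t ∧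
    ∀ s', s ≤ s' → s' < v → kid c t s' = .RTh v

/-- `x` is an end of a run at the time `t` -/
def KCut (c t x : ℕ) : Prop := x = 0 ∨ x = wb c t ∨ kid c t (x - 1) ≠ kid c t x

/-- sizes and divisibility: `b` is the first position of a block -/
structure KidSize (c t : ℕ) : Prop where
  P : ∀ g, ∀ s < wb c t, kid c t s = .P g → ∀ e, s < e → e ≤ wb c t → KCut c t e →
    (∀ s', s ≤ s' → s' < e → kid c t s' = .P g) → Wd c (e - 1) ∣ e ∧ Wd c (e - 1) ∣ g
  PT : ∀ g b, ∀ s < wb c t, kid c t s = .PT g b → Wd c b ∣ b ∧ Wd c b ∣ g ∧ Wd c b ∣ av c t ∧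
    t ≤ CC c ^ 4 * b
  R : ∀ v, ∀ s < wb c t, kid c t s = .R v → KCut c t s → Wd c (s - 1) ∣ s ∧ Wd c (s - 1) ∣ v
  RT : ∀ v, ∀ s < wb c t, kid c t s = .RT v → KCut c t s → Wd c s ∣ s ∧ Wd c s ∣ v
  RTh : ∀ v, ∀ s < wb c t, kid c t s = .RTh v → KCut c t s → Wd c s ∣ s ∧ Wd c s ∣ v
  ep : ∀ g, ∀ s < wb c t, (kid c t s = .P g ∨ ∃ b, kid c t s = .PT g b) → g = 0 ∨
    ep c g = ep c s
  low : ∀ x, 0 < x → x ≤ wb c t → KCut c t x → t ≤ CC c ^ 4 * x
  z : ∀ v, kid c t 0 ≠ .RTh v ∧ kid c t 0 ≠ .RT v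

/-- the kinds in a cell `[g, v)` with the unit `b` in action: `0` before, `1, 2, 3` the
transitional states, `4` after (in the upward direction) -/
def cellKid (c g b v σ s : ℕ) : Kid :=
  if σ = 0 then (if s < b then .P g else .RTh v) else
  if σ = 1 then (if s < b + Wd c b then .PT g b else .R v) else
  if σ = 2 then (if s < b + Wd c b then .P g else .R v) else
  if σ = 3 then (if s < b + Wd c b then .P g else .RT v) else
  (if s < b + Wd c b then .P g else .RTh v)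

/-- the kinds of the rest states -/
def IsRest : Kid → Prop
  | .P _ => True
  | .RTh _ => True
  | _ => False

/-- the cell `[g, v)` is in the state `σ` at the time `t` and nothing else is in action -/
structure CellAt (c t g b v σ : ℕ) : Prop where
  hg : g ≤ b
  hb : b + Wd c b ≤ v
  hv : v ≤ wb c t
  db : Wd c b ∣ b
  dg : Wd c b ∣ g
  dv : Wd c b ∣ v
  db' : Wd c (b + Wd c b) ∣ b + Wd c b
  dv' : Wd c (b + Wd c b) ∣ v
  epg : g = 0 ∨ ep c g = ep c b
  low : t ≤ CC c ^ 4 * b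
  kid : ∀ s, g ≤ s → s < v → kid c t s = cellKid c g b v σ s
  cutg : g = 0 ∨ Helper29.ETK.kid c t (g - 1) ≠ Helper29.ETK.kid c t g
  cutv : v = wb c t ∨ Helper29.ETK.kid c t (v - 1) ≠ Helper29.ETK.kid c t v
  out : ∀ s, s < wb c t → (s < g ∨ v ≤ s) → IsRest (Helper29.ETK.kid c t s)
  av : σ = 1 → av c t = v

/-- two close times -/
structure NearK (c K K' : ℕ) : Prop where
  /-- the window: nothing, `plain → composite`, or `composite → split` -/
  win : (wb c K = wb c K' ∧ (wcomp c K' → wcomp c K)) ∨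
    (wb c K = wb c K' + nb c (wb c K') ∧ wcomp c K' ∧ ¬ wcomp c K ∧
      (∀ s, wb c K' ≤ s → s < wb c K → kid c K s = .RTh (wb c K)) ∧
      wb c K' + nb c (wb c K') ≤ K')
  /-- below: both in rest and equal, or one cell in the same or in adjacent states -/
  cell : (∀ s, s < wb c K' → kid c K s = kid c K' s ∧ IsRest (kid c K' s)) ∨
    ∃ g b v σ σ', (σ = σ' ∨ σ = σ' + 1 ∨ σ' = σ + 1) ∧ σ ≤ 4 ∧ σ' ≤ 4 ∧
      CellAt c K g b v σ ∧ CellAt c K' g b v σ' ∧
      ∀ s, s < wb c K' → (s < g ∨ v ≤ s) → kid c K s = kid c K' s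

end Pool.Agent.ETS
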