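import Mathlib
import Pool.Agent.ETS.OwnLay
import Pool.Agent.ETS.Zone

/-!
# E-T (MP_12a1af_nt), project T*: chunks made of one region of each scale
-/

open Finset

namespace Pool.Agent.ETS

variable {C : Codes}

/-- pair bound for the contents of two regions with the same bottom and top -/
def PB (C : Codes) (r r' : Reg) (B : ℕ) : Prop :=
  ∀ ν : ℕ, ((r.V C ×ˢ r'.V C).filter (fun q =>
    r.c C q.1 + r'.c C q.2 ≡ ν [MOD 2 ^ (r.len C)])).card ≤ B

/-- distinct variables have distinct contents modulo `2 ^ len` -/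
def Reg.Inj (C : Codes) (r : Reg) : Prop :=
  ∀ z ∈ r.V C, ∀ w ∈ r.V C, r.c C z ≡ r.c C w [MOD 2 ^ (r.len C)] → z = w

lemma PB.mono {r r' : Reg} {B B' : ℕ} (h : PB C r r' B) (hB : B ≤ B') : PB C r r' B' :=
  fun ν => (h ν).trans hB

lemma PB.symm {r r' : Reg} {B : ℕ} (h : PB C r r' B) (hl : r.len C = r'.len C) :
    PB C r' r B := by
  intro ν
  refine le_trans (le_of_eq ?_) (h ν)
  refine card_bij (fun q _ => (q.2, q.1)) ?_ ?_ ?_
  · intro q hq
    rw [mem_filter, mem_product] at hq ⊢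
    exact ⟨⟨hq.1.2, hq.1.1⟩, by rw [add_comm, hl]; exact hq.2⟩
  · intro q _ q' _ h
    rw [Prod.mk.injEq] at h
    exact Prod.ext h.2 h.1
  · intro q hq
    rw [mem_filter, mem_product] at hq
    refine ⟨(q.2, q.1), ?_, rfl⟩
    rw [mem_filter, mem_product]
    exact ⟨⟨hq.1.2, hq.1.1⟩, by rw [add_comm, ← hl]; exact hq.2⟩

lemma mem_Vs_single {r : Reg} {z : List ℕ} : z ∈ Vs C [r] ↔ ∃ a, z = [a] ∧ a ∈ r.V C := by
  rw [mem_Vs_cons]
  constructor
  · rintro ⟨a, t, rfl, ha, ht⟩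
    rw [Vs_nil, mem_singleton] at ht
    rw [ht]
    exact ⟨a, rfl, ha⟩
  · rintro ⟨a, rfl, ha⟩
    exact ⟨a, [], rfl, ha, by simp⟩

lemma val_single {r : Reg} {h : Hash} {a : ℕ} :
    val C [r] h [a] = 2 ^ r.bot * ((r.c C a + h []) % 2 ^ (r.len C)) := by
  simp [val]

lemma modEq_sub_of_mul {b l A A' ν : ℕ} (h : 2 ^ b * (A % 2 ^ l) + 2 ^ b * (A' % 2 ^ l) ≡ ν
    [MOD 2 ^ (b + l)]) : A + A' ≡ ν / 2 ^ b [MOD 2 ^ l] := by
  have h1 : 2 ^ b * (A % 2 ^ l + A' % 2 ^ l) ≡ ν [MOD 2 ^ (b + l)] := by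
    rw [mul_add]; exact h
  have h2 : ν % 2 ^ b = 0 := by
    have h3 : 2 ^ b * (A % 2 ^ l + A' % 2 ^ l) ≡ ν [MOD 2 ^ b] :=
      h1.of_dvd (pow_dvd_pow 2 (by omega))
    have h4 : 2 ^ b * (A % 2 ^ l + A' % 2 ^ l) ≡ 0 [MOD 2 ^ b] :=
      (Nat.modEq_zero_iff_dvd).mpr (Dvd.intro _ rfl)
    have h5 : ν ≡ 0 [MOD 2 ^ b] := h3.symm.trans h4
    exact h5
  obtain ⟨m, hm⟩ := Nat.dvd_of_mod_eq_zero h2
  have h3 : ν / 2 ^ b = m := by
    rw [hm]; exact Nat.mul_div_cancel_left _ (by positivity)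
  rw [h3]
  rw [hm, pow_add] at h1
  have h4 := Nat.ModEq.mul_left_cancel' (by positivity : (2:ℕ) ^ b ≠ 0) h1
  refine Nat.ModEq.trans ?_ h4
  exact ((Nat.mod_modEq _ _).add (Nat.mod_modEq _ _)).symm

lemma NB_single {r r' : Reg} {B : ℕ} (hb : r.bot = r'.bot) (ht : r.top C = r'.top C)
    (hle : r.bot ≤ r.top C) (h : PB C r r' B) : NB C [r] [r'] (r.top C) B := by
  intro f f' ν
  obtain ⟨ν', hν'⟩ := exists_modEq_shift (f [] + f' []) (ν / 2 ^ r.bot) (2 ^ r.len C)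
    (by positivity)
  refine le_trans ?_ (h ν')
  refine card_le_card_of_surjOn (fun q => ([q.1], [q.2])) ?_
  intro q hq
  simp only [coe_filter, Set.mem_ofPred_eq, mem_product] at hq
  obtain ⟨⟨h1, h2⟩, h3⟩ := hq
  obtain ⟨a, ha, haV⟩ := mem_Vs_single.mp h1
  obtain ⟨a', ha', haV'⟩ := mem_Vs_single.mp h2
  refine ⟨(a, a'), ?_, ?_⟩
  · simp only [coe_filter, Set.mem_ofPred_eq, mem_product]
    refine ⟨⟨haV, haV'⟩, ?_⟩
    rw [ha, ha', val_single, val_single] at h3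
    have hl : r'.len C = r.len C := by unfold Reg.len; rw [hb, ht]
    rw [← hb, hl] at h3
    have ht2 : r.top C = r.bot + r.len C := by unfold Reg.len; omega
    rw [ht2] at h3
    have h4 := modEq_sub_of_mul h3
    refine hν' _ ?_
    have h5 : r.c C a + f [] + (r'.c C a' + f' []) = f [] + f' [] + (r.c C a + r'.c C a') := by
      ring
    rw [h5] at h4
    exact h4
  · rw [Prod.ext_iff]
    exact ⟨ha.symm, ha'.symm⟩

/-- pair bounds from the bounds for zones -/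
lemma PB_of_zcons {r r' : Reg} {B : ℕ} (hb : r.bot = r'.bot) (ht : r.top C = r'.top C)
    (hle : r.bot ≤ r.top C) (hi : r.Inj C) (hi' : r'.Inj C)
    (h : ∀ n, (zcons (r.top C + 1) (r.top C + 1) n (zreg C r 0 0) (zreg C r' 0 0)).card ≤ B) :
    PB C r r' B := by
  intro ν
  have hl : r'.len C = r.len C := by unfold Reg.len; rw [hb, ht]
  have ht2 : r.top C = r.bot + r.len C := by unfold Reg.len; omega
  set n := 2 ^ (r.top C + 1) + 2 ^ (r.top C + 1) + 2 ^ r.bot * (ν % 2 ^ r.len C) +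
    2 ^ (r.top C) with hn
  refine le_trans ?_ (h n)
  refine card_le_card_of_injOn (fun q => (2 ^ r.bot * (r.c C q.1 % 2 ^ r.len C),
    2 ^ r'.bot * (r'.c C q.2 % 2 ^ r'.len C))) ?_ ?_
  · intro q hq
    simp only [coe_filter, Set.mem_ofPred_eq, mem_product] at hq
    obtain ⟨⟨h1, h2⟩, h3⟩ := hq
    rw [mem_coe, mem_zcons]
    refine ⟨⟨?_, ?_⟩, ?_⟩
    · simp only [zreg, mem_image]
      exact ⟨q.1, h1, by simp [Reg.len]⟩
    · simp only [zreg, mem_image]
      exact ⟨q.2, h2, by simp [Reg.len]⟩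
    · simp only [zreg]
      rw [← ht, ← hb, hl]
      have e1 : r.top C + 1 - r.top C = 1 := by omega
      rw [e1]
      set A := r.c C q.1 % 2 ^ r.len C
      set A' := r'.c C q.2 % 2 ^ r.len C
      have hA : A < 2 ^ r.len C := Nat.mod_lt _ (by positivity)
      have hA' : A' < 2 ^ r.len C := Nat.mod_lt _ (by positivity)
      have h4 : A + A' ≡ ν [MOD 2 ^ r.len C] :=
        ((Nat.mod_modEq _ _).add (Nat.mod_modEq _ _)).trans h3
      have h5 : (A + A') % 2 ^ r.len C = ν % 2 ^ r.len C := h4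
      have hp : 2 ^ r.top C = 2 ^ r.bot * 2 ^ r.len C := by rw [ht2, pow_add]
      rcases lt_or_ge (A + A') (2 ^ r.len C) with h6 | h6
      · refine ⟨1, 0, by norm_num, by norm_num, ?_⟩
        rw [Nat.mod_eq_of_lt h6] at h5
        rw [hn, ← h5]
        ring
      · refine ⟨0, 0, by norm_num, by norm_num, ?_⟩
        have h7 : (A + A') % 2 ^ r.len C = A + A' - 2 ^ r.len C := by
          rw [Nat.mod_eq_sub_mod h6, Nat.mod_eq_of_lt (by omega)]
        rw [h7] at h5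
        rw [hn, ← h5, hp]
        have h8 : 2 ^ r.bot * (A + A' - 2 ^ r.len C) + 2 ^ r.bot * 2 ^ r.len C =
            2 ^ r.bot * (A + A') := by
          rw [← mul_add]; congr 1; omega
        rw [mul_add] at h8
        omega
  · intro q hq q' hq' he
    simp only [coe_filter, Set.mem_ofPred_eq, mem_product] at hq hq'
    simp only [Prod.mk.injEq] at he
    refine Prod.ext (hi _ hq.1.1 _ hq'.1.1 ?_) (hi' _ hq.1.2 _ hq'.1.2 ?_)
    · exact Nat.eq_of_mul_eq_mul_left (by positivity) he.1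
    · exact Nat.eq_of_mul_eq_mul_left (by positivity) he.2

end Pool.Agent.ETS
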