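import Mathlib
import Pool.Agent.Helper16.ETL.Near1

/-!
# E-T (MP_12a1af_nt), project T*: the chunk `(Th_b, B_b)`
-/

open Finset

namespace Pool.Agent.ETS

variable {C : Codes}

/-- the P part of a cell, empty if `b = f` -/
def Pl (p f b : ℕ) : List Reg := if f < b then [Reg.P p f b] else []

/-- upper part of the transition `(Th_b, B_b)`: block with `Theta` against the zone above `PT` -/
def RSB (C : Codes) (e l β : ℕ) : Prop :=
  ∀ κ κ₂ ν : ℕ, ((pairs (C.Y (l - C.W e)) (C.Th e) ×ˢ pairs (C.Y (l - C.W e)) (C.T e)).filter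
    (fun q => C.E l (Nat.unpair q.1).1 + (Nat.unpair q.1).2 +
      (((Nat.unpair q.2).2 + κ) % 2 ^ C.W e +
        2 ^ C.W e * ((C.E (l - C.W e) (Nat.unpair q.2).1 + κ₂) % 2 ^ (l - C.W e))) ≡ ν
        [MOD 2 ^ l])).card ≤ β

lemma mem_Vs_pair {r s : Reg} {z : List ℕ} :
    z ∈ Vs C [r, s] ↔ ∃ a b, z = [a, b] ∧ a ∈ r.V C ∧ b ∈ s.V C := by
  rw [mem_Vs_cons]
  constructor
  · rintro ⟨a, t, rfl, ha, ht⟩
    obtain ⟨b, rfl, hb⟩ := mem_Vs_single.mp ht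
    exact ⟨a, b, rfl, ha, hb⟩
  · rintro ⟨a, b, rfl, ha, hb⟩
    exact ⟨a, [b], rfl, ha, mem_Vs_single.mpr ⟨b, rfl, hb⟩⟩

lemma val_pair {r s : Reg} {h : Hash} {a b : ℕ} :
    val C [r, s] h [a, b] = 2 ^ r.bot * ((r.c C a + h []) % 2 ^ (r.len C)) +
      2 ^ s.bot * ((s.c C b + h [r.core a]) % 2 ^ (s.len C)) := by
  simp [val, Reg.next]

lemma add_pow_mul_mod (A t k w : ℕ) :
    (A + 2 ^ k * t) % 2 ^ (k + w) = A % 2 ^ k + 2 ^ k * ((t + A / 2 ^ k) % 2 ^ w) := by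
  have h1 : A + 2 ^ k * t = A % 2 ^ k + 2 ^ k * (t + A / 2 ^ k) := by
    have := Nat.mod_add_div A (2 ^ k)
    rw [mul_add]
    omega
  rw [h1, pow_add, Nat.mod_mul]
  have h2 : (A % 2 ^ k + 2 ^ k * (t + A / 2 ^ k)) % 2 ^ k = A % 2 ^ k := by
    rw [Nat.add_mul_mod_self_left, Nat.mod_mod]
  have h3 : (A % 2 ^ k + 2 ^ k * (t + A / 2 ^ k)) / 2 ^ k = t + A / 2 ^ k := by
    rw [Nat.add_mul_div_left _ _ (by positivity), Nat.div_eq_of_lt (Nat.mod_lt _ (by positivity))]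
    omega
  rw [h2, h3]

/-- the value of the lists `[PT, R]` -/
lemma val_PTR {p e f b v : ℕ} {h : Hash} {s y : ℕ} (hf : f ≤ b) :
    val C [Reg.PT p e f b, Reg.R (b + C.W e) v] h [s, y] =
      2 ^ f * ((C.P p (b + C.W e - f) (Nat.unpair s).1 + h []) % 2 ^ (b - f)) +
      2 ^ b * (((Nat.unpair s).2 + (C.P p (b + C.W e - f) (Nat.unpair s).1 + h []) / 2 ^ (b - f)) %
        2 ^ C.W e) +
      2 ^ (b + C.W e) * ((C.E (v - (b + C.W e)) y + h [(Nat.unpair s).1]) %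
        2 ^ (v - (b + C.W e))) := by
  rw [val_pair]
  simp only [Reg.bot, Reg.c, Reg.len, Reg.top, Reg.core]
  have h1 : C.P p (b + C.W e - f) (Nat.unpair s).1 + 2 ^ (b - f) * (Nat.unpair s).2 + h [] =
      C.P p (b + C.W e - f) (Nat.unpair s).1 + h [] + 2 ^ (b - f) * (Nat.unpair s).2 := by ring
  have h2 : b + C.W e - f = (b - f) + C.W e := by omega
  rw [h1]
  conv_lhs => rw [h2, add_pow_mul_mod]
  have h3 : 2 ^ b = 2 ^ f * 2 ^ (b - f) := by rw [← pow_add]; congr 1; omega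
  rw [mul_add, ← mul_assoc, ← h3, ← h2]

lemma modEq_div_of {b l c A ν : ℕ} (h : c + 2 ^ b * A ≡ ν [MOD 2 ^ (b + l)]) :
    A ≡ (ν + (2 ^ (b + l) - 1) * c) / 2 ^ b [MOD 2 ^ l] := by
  have hp : 0 < 2 ^ (b + l) := by positivity
  have h1 : c + 2 ^ b * A + (2 ^ (b + l) - 1) * c ≡ ν + (2 ^ (b + l) - 1) * c [MOD 2 ^ (b + l)] :=
    Nat.ModEq.add_right _ h
  have h2 : c + 2 ^ b * A + (2 ^ (b + l) - 1) * c = 2 ^ b * (A + 2 ^ l * c) := by
    obtain ⟨k, hk⟩ : ∃ k, 2 ^ (b + l) = k + 1 := ⟨2 ^ (b + l) - 1, by omega⟩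
    have h3 : 2 ^ b * 2 ^ l = k + 1 := by rw [← pow_add]; exact hk
    rw [hk, Nat.add_sub_cancel, mul_add, ← mul_assoc, h3]
    ring
  rw [h2] at h1
  set N := ν + (2 ^ (b + l) - 1) * c
  have h3 : N % 2 ^ b = 0 := by
    have h4 : 2 ^ b * (A + 2 ^ l * c) ≡ N [MOD 2 ^ b] := h1.of_dvd (pow_dvd_pow 2 (by omega))
    have h5 : 2 ^ b * (A + 2 ^ l * c) ≡ 0 [MOD 2 ^ b] :=
      (Nat.modEq_zero_iff_dvd).mpr (Dvd.intro _ rfl)
    exact h4.symm.trans h5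
  obtain ⟨m, hm⟩ := Nat.dvd_of_mod_eq_zero h3
  have h4 : N / 2 ^ b = m := by
    rw [hm]; exact Nat.mul_div_cancel_left _ (by positivity)
  rw [h4]
  rw [hm, pow_add] at h1
  have h5 := Nat.ModEq.mul_left_cancel' (by positivity : (2:ℕ) ^ b ≠ 0) h1
  refine Nat.ModEq.trans ?_ h5
  exact ((Nat.modEq_iff_dvd' (by omega)).mpr ⟨c, by omega⟩)

/-- fibre of the transition `(Th_b, B_b)`: `x` and `x'` fixed -/
lemma card_fib_ThB {p e f b v β : ℕ} (hf : f ≤ b) (hv : b + C.W e ≤ v)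
    (hRS : RSB C e (v - b) β) (κ κ₂ κ₁' c x' ν : ℕ) :
    (((pairs (C.Y (v - b - C.W e)) (C.Th e)) ×ˢ (C.T e ×ˢ C.Y (v - (b + C.W e)))).filter
      (fun q => c + 2 ^ b * ((C.E (v - b) (Nat.unpair q.1).1 + (Nat.unpair q.1).2 + κ) % 2 ^ (v - b))
        + (2 ^ f * ((C.P p (b + C.W e - f) x' + κ₁') % 2 ^ (b - f)) +
      2 ^ b * ((q.2.1 + (C.P p (b + C.W e - f) x' + κ₁') / 2 ^ (b - f)) %
        2 ^ C.W e) +
      2 ^ (b + C.W e) * ((C.E (v - (b + C.W e)) q.2.2 + κ₂) %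
        2 ^ (v - (b + C.W e)))) ≡ ν [MOD 2 ^ v])).card ≤ β := by
  set A := C.P p (b + C.W e - f) x' + κ₁' with hA
  set c' := c + 2 ^ f * (A % 2 ^ (b - f)) with hc'
  set ν₁ := (ν + (2 ^ (b + (v - b)) - 1) * c') / 2 ^ b with hν₁
  obtain ⟨ν₂, hν₂⟩ := exists_modEq_shift κ ν₁ (2 ^ (v - b)) (by positivity)
  refine le_trans ?_ (hRS (A / 2 ^ (b - f)) κ₂ ν₂)
  refine card_le_card_of_injOn (fun q => (q.1, Nat.pair q.2.2 q.2.1)) ?_ ?_
  · intro q hq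
    simp only [coe_filter, Set.mem_ofPred_eq, mem_product] at hq ⊢
    obtain ⟨⟨h1, h2, h3⟩, h4⟩ := hq
    have e1 : v - b - C.W e = v - (b + C.W e) := by omega
    refine ⟨⟨h1, ?_⟩, ?_⟩
    · rw [mem_pairs, Nat.unpair_pair]
      exact ⟨by rw [e1]; exact h3, h2⟩
    · simp only [Nat.unpair_pair]
      rw [e1]
      refine hν₂ _ ?_
      have e2 : b + (v - b) = v := by omega
      have h5 : c' + 2 ^ b * ((C.E (v - b) (Nat.unpair q.1).1 + (Nat.unpair q.1).2 + κ) %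
          2 ^ (v - b) + ((q.2.1 + A / 2 ^ (b - f)) % 2 ^ C.W e +
          2 ^ C.W e * ((C.E (v - (b + C.W e)) q.2.2 + κ₂) % 2 ^ (v - (b + C.W e))))) ≡ ν
          [MOD 2 ^ (b + (v - b))] := by
        rw [e2]
        refine Nat.ModEq.trans ?_ h4
        rw [hc', pow_add]
        have : ∀ a b m : ℕ, a = b → a ≡ b [MOD m] := fun a b m h => by rw [h]
        apply this
        ring
      have h6 := modEq_div_of h5
      rw [← hν₁] at h6
      refine Nat.ModEq.trans ?_ h6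
      have e3 : κ + (C.E (v - b) (Nat.unpair q.1).1 + (Nat.unpair q.1).2 +
          ((q.2.1 + A / 2 ^ (b - f)) % 2 ^ C.W e +
          2 ^ C.W e * ((C.E (v - (b + C.W e)) q.2.2 + κ₂) % 2 ^ (v - (b + C.W e))))) =
          (C.E (v - b) (Nat.unpair q.1).1 + (Nat.unpair q.1).2 + κ) +
          ((q.2.1 + A / 2 ^ (b - f)) % 2 ^ C.W e +
          2 ^ C.W e * ((C.E (v - (b + C.W e)) q.2.2 + κ₂) % 2 ^ (v - (b + C.W e)))) := by ring
      rw [e3]
      exact (Nat.mod_modEq _ _).symm.add_right _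
  · intro q _ q' _ he
    simp only [Prod.mk.injEq, Nat.pair_eq_pair] at he
    exact Prod.ext he.1 (Prod.ext he.2.2 he.2.1)

lemma modEq_drop {b X A Y B w D ν : ℕ}
    (h : X + 2 ^ b * A + (Y + 2 ^ b * B + 2 ^ b * w * D) ≡ ν [MOD 2 ^ b]) :
    X + Y ≡ ν [MOD 2 ^ b] := by
  have h1 : X + 2 ^ b * A + (Y + 2 ^ b * B + 2 ^ b * w * D) = X + Y + 2 ^ b * (A + B + w * D) := by
    ring
  rw [h1] at h
  refine Nat.ModEq.trans ?_ h
  unfold Nat.ModEq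
  rw [Nat.add_mul_mod_self_left]

lemma NB_ThB {p e f b v μ β : ℕ} (hf : f < b) (hv : b + C.W e ≤ v)
    (hPP : PB C (Reg.P p f b) (Reg.P p f b) μ)
    (hmod : ∀ x ∈ C.X p (b - f), C.P p (b + C.W e - f) x ≡ C.P p (b - f) x [MOD 2 ^ (b - f)])
    (hRS : RSB C e (v - b) β) :
    NB C [Reg.P p f b, Reg.RTh e b v] [Reg.PT p e f b, Reg.R (b + C.W e) v] v (μ * β) := by
  intro h h' ν
  set S := ((Vs C [Reg.P p f b, Reg.RTh e b v] ×ˢ
    Vs C [Reg.PT p e f b, Reg.R (b + C.W e) v]).filter (fun q =>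
    val C [Reg.P p f b, Reg.RTh e b v] h q.1 +
      val C [Reg.PT p e f b, Reg.R (b + C.W e) v] h' q.2 ≡ ν [MOD 2 ^ v])) with hS
  obtain ⟨ν', hν'⟩ := exists_modEq_shift (h [] + h' []) (ν / 2 ^ f) (2 ^ (b - f)) (by positivity)
  set T := ((C.X p (b - f) ×ˢ C.X p (b - f)).filter (fun q =>
    C.P p (b - f) q.1 + C.P p (b - f) q.2 ≡ ν' [MOD 2 ^ (b - f)])) with hT
  have hTc : T.card ≤ μ := hPP ν'
  set F : List ℕ × List ℕ → ℕ × ℕ := fun q => (q.1.headD 0, (Nat.unpair (q.2.headD 0)).1) with hF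
  have hmem : ∀ q ∈ S, ∃ x u s y, q = ([x, u], [s, y]) ∧ x ∈ C.X p (b - f) ∧
      u ∈ pairs (C.Y (v - b - C.W e)) (C.Th e) ∧ (Nat.unpair s).1 ∈ C.X p (b - f) ∧
      (Nat.unpair s).2 ∈ C.T e ∧ y ∈ C.Y (v - (b + C.W e)) ∧
      2 ^ f * ((C.P p (b - f) x + h []) % 2 ^ (b - f)) +
        2 ^ b * ((C.E (v - b) (Nat.unpair u).1 + (Nat.unpair u).2 + h [x]) % 2 ^ (v - b)) +
      (2 ^ f * ((C.P p (b + C.W e - f) (Nat.unpair s).1 + h' []) % 2 ^ (b - f)) +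
      2 ^ b * (((Nat.unpair s).2 + (C.P p (b + C.W e - f) (Nat.unpair s).1 + h' []) /
        2 ^ (b - f)) % 2 ^ C.W e) +
      2 ^ (b + C.W e) * ((C.E (v - (b + C.W e)) y + h' [(Nat.unpair s).1]) %
        2 ^ (v - (b + C.W e)))) ≡ ν [MOD 2 ^ v] := by
    rintro ⟨z, z'⟩ hq
    rw [hS, mem_filter, mem_product] at hq
    obtain ⟨⟨hz, hz'⟩, he⟩ := hq
    obtain ⟨x, u, rfl, hx, hu⟩ := mem_Vs_pair.mp hz
    obtain ⟨s, y, rfl, hs, hy⟩ := mem_Vs_pair.mp hz'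
    simp only [Reg.V] at hx hu hs hy
    rw [mem_pairs] at hs
    refine ⟨x, u, s, y, rfl, hx, hu, hs.1, hs.2, hy, ?_⟩
    simp only at he
    rw [val_PTR hf.le, val_pair] at he
    simpa [Reg.bot, Reg.c, Reg.len, Reg.top, Reg.core] using he
  have hmaps : ∀ q ∈ S, F q ∈ T := by
    intro q hq
    obtain ⟨x, u, s, y, rfl, hx, hu, hs1, hs2, hy, he⟩ := hmem q hq
    simp only [hF, List.headD_cons, hT, mem_filter, mem_product]
    refine ⟨⟨hx, hs1⟩, ?_⟩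
    have h1 : 2 ^ f * ((C.P p (b - f) x + h []) % 2 ^ (b - f)) +
        2 ^ f * ((C.P p (b + C.W e - f) (Nat.unpair s).1 + h' []) % 2 ^ (b - f)) ≡ ν
        [MOD 2 ^ (f + (b - f))] := by
      have e1 : f + (b - f) = b := by omega
      rw [e1]
      have h2 := he.of_dvd (pow_dvd_pow 2 (show b ≤ v by omega))
      rw [pow_add 2 b (C.W e)] at h2
      exact modEq_drop h2
    have h3 := modEq_sub_of_mul h1
    refine hν' _ ?_
    refine Nat.ModEq.trans ?_ h3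
    have h4 := hmod _ hs1
    have h5 : C.P p (b - f) x + h [] + (C.P p (b + C.W e - f) (Nat.unpair s).1 + h' []) =
      h [] + h' [] + (C.P p (b - f) x + C.P p (b + C.W e - f) (Nat.unpair s).1) := by ring
    rw [h5]
    exact Nat.ModEq.add_left _ (Nat.ModEq.add_left _ h4.symm)
  have hfib : ∀ a ∈ T, (S.filter (fun q => F q = a)).card ≤ β := by
    rintro ⟨x, x'⟩ _
    refine le_trans ?_ (card_fib_ThB hf.le hv hRS (h [x]) (h' [x']) (h' [])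
      (2 ^ f * ((C.P p (b - f) x + h []) % 2 ^ (b - f))) x' ν (p := p))
    refine card_le_card_of_injOn (fun q => (q.1.getD 1 0, ((Nat.unpair (q.2.headD 0)).2,
      q.2.getD 1 0))) ?_ ?_
    · intro q hq
      rw [mem_coe, mem_filter] at hq
      obtain ⟨hq1, hq2⟩ := hq
      obtain ⟨x1, u, s, y, rfl, hx, hu, hs1, hs2, hy, he⟩ := hmem q hq1
      simp only [hF, List.headD_cons, Prod.mk.injEq] at hq2
      obtain ⟨rfl, rfl⟩ := hq2
      simp only [coe_filter, Set.mem_ofPred_eq, mem_product, List.headD_cons]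
      exact ⟨⟨hu, hs2, hy⟩, he⟩
    · intro q hq q' hq' he
      rw [mem_coe, mem_filter] at hq hq'
      obtain ⟨hq1, hq2⟩ := hq
      obtain ⟨hq1', hq2'⟩ := hq'
      obtain ⟨x1, u, s, y, rfl, -⟩ := hmem q hq1
      obtain ⟨x1', u', s', y', rfl, -⟩ := hmem q' hq1'
      simp only [hF, List.headD_cons, Prod.mk.injEq] at hq2 hq2' he
      obtain ⟨he1, he2, he3⟩ := he
      have e1 : x1 = x1' := hq2.1.trans hq2'.1.symm
      have e2 : u = u' := he1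
      have e3 : y = y' := he3
      have e4 : s = s' := by
        rw [← Nat.pair_unpair s, ← Nat.pair_unpair s', hq2.2, hq2'.2, he2]
      rw [e1, e2, e3, e4]
  calc S.card ≤ β * T.card := card_le_mul_card_image_of_maps_to hmaps β hfib
    _ ≤ β * μ := Nat.mul_le_mul_left _ hTc
    _ = μ * β := mul_comm _ _

lemma NB_ThB0 {p e b v β : ℕ} (hv : b + C.W e ≤ v) (hX0 : (C.X p 0).card ≤ 1)
    (hRS : RSB C e (v - b) β) :
    NB C [Reg.RTh e b v] [Reg.PT p e b b, Reg.R (b + C.W e) v] v β := by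
  intro h h' ν
  set S := ((Vs C [Reg.RTh e b v] ×ˢ
    Vs C [Reg.PT p e b b, Reg.R (b + C.W e) v]).filter (fun q =>
    val C [Reg.RTh e b v] h q.1 +
      val C [Reg.PT p e b b, Reg.R (b + C.W e) v] h' q.2 ≡ ν [MOD 2 ^ v])) with hS
  have hmem : ∀ q ∈ S, ∃ u s y, q = ([u], [s, y]) ∧
      u ∈ pairs (C.Y (v - b - C.W e)) (C.Th e) ∧ (Nat.unpair s).1 ∈ C.X p 0 ∧
      (Nat.unpair s).2 ∈ C.T e ∧ y ∈ C.Y (v - (b + C.W e)) ∧
      0 + 2 ^ b * ((C.E (v - b) (Nat.unpair u).1 + (Nat.unpair u).2 + h []) % 2 ^ (v - b)) +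
      (2 ^ b * ((C.P p (b + C.W e - b) (Nat.unpair s).1 + h' []) % 2 ^ (b - b)) +
      2 ^ b * (((Nat.unpair s).2 + (C.P p (b + C.W e - b) (Nat.unpair s).1 + h' []) /
        2 ^ (b - b)) % 2 ^ C.W e) +
      2 ^ (b + C.W e) * ((C.E (v - (b + C.W e)) y + h' [(Nat.unpair s).1]) %
        2 ^ (v - (b + C.W e)))) ≡ ν [MOD 2 ^ v] := by
    rintro ⟨z, z'⟩ hq
    rw [hS, mem_filter, mem_product] at hq
    obtain ⟨⟨hz, hz'⟩, he⟩ := hq
    obtain ⟨u, rfl, hu⟩ := mem_Vs_single.mp hz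
    obtain ⟨s, y, rfl, hs, hy⟩ := mem_Vs_pair.mp hz'
    simp only [Reg.V] at hu hs hy
    rw [mem_pairs] at hs
    refine ⟨u, s, y, rfl, hu, by simpa using hs.1, hs.2, hy, ?_⟩
    simp only at he
    rw [val_PTR le_rfl, val_single] at he
    simpa [Reg.bot, Reg.c, Reg.len, Reg.top, Reg.core] using he
  rcases S.eq_empty_or_nonempty with h0 | ⟨q0, hq0⟩
  · rw [h0]; simp
  obtain ⟨-, s0, -, -, -, hs0, -⟩ := hmem q0 hq0
  set x' := (Nat.unpair s0).1 with hx'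
  have huniq : ∀ x ∈ C.X p 0, x = x' := fun x hx =>
    Finset.card_le_one.mp hX0 x hx x' hs0
  refine le_trans ?_ (card_fib_ThB le_rfl hv hRS (h []) (h' [x']) (h' []) 0 x' ν (p := p))
  refine card_le_card_of_injOn (fun q => (q.1.headD 0, ((Nat.unpair (q.2.headD 0)).2,
      q.2.getD 1 0))) ?_ ?_
  · intro q hq
    obtain ⟨u, s, y, rfl, hu, hs1, hs2, hy, he⟩ := hmem q hq
    rw [huniq _ hs1] at he
    simp only [coe_filter, Set.mem_ofPred_eq, mem_product, List.headD_cons]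
    exact ⟨⟨hu, hs2, hy⟩, he⟩
  · intro q hq q' hq' he
    obtain ⟨u, s, y, rfl, -, hs, -⟩ := hmem q hq
    obtain ⟨u', s', y', rfl, -, hs', -⟩ := hmem q' hq'
    simp only [List.headD_cons, Prod.mk.injEq] at he
    obtain ⟨he1, he2, he3⟩ := he
    have e3 : y = y' := he3
    have e4 : s = s' := by
      rw [← Nat.pair_unpair s, ← Nat.pair_unpair s', huniq _ hs, huniq _ hs', he2]
    rw [he1, e3, e4]

end Pool.Agent.ETS
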