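import Mathlib
import Pool.Agent.Helper16.ETL.Near2

/-!
# E-T (MP_12a1af_nt), project T*: the states of a cell, near pairs of lists of regions
-/

open Finset

namespace Pool.Agent.ETS

variable {C : Codes}

/-- the R part of a cell without block, empty if `b = v` -/
def Rl (b v : ℕ) : List Reg := if b < v then [Reg.R b v] else []

/-- the R part of a cell with a Theta block, empty if `b = v` -/
def RThl (e b v : ℕ) : List Reg := if b < v then [Reg.RTh e b v] else []

/-- pairs of states of one cell which occur for close scales; the lists are those of the cell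
`[f, v)`.  `W e` is the length of the blocks. -/
inductive Near1 (C : Codes) : List Reg → List Reg → Prop
  | BB (p e f b v : ℕ) : Near1 C [Reg.PT p e f b, Reg.R (b + C.W e) v]
      [Reg.PT p e f b, Reg.R (b + C.W e) v]
  | FF (p f b v : ℕ) : Near1 C (Pl p f b ++ Rl b v) (Pl p f b ++ Rl b v)
  | AA (p e f b v : ℕ) : Near1 C (Pl p f b ++ [Reg.RT e b v]) (Pl p f b ++ [Reg.RT e b v])
  | ThB (p e f b v : ℕ) : Near1 C (Pl p f b ++ [Reg.RTh e b v])
      [Reg.PT p e f b, Reg.R (b + C.W e) v]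
  | BF (p e f b v : ℕ) : Near1 C [Reg.PT p e f b, Reg.R (b + C.W e) v]
      ([Reg.P p f (b + C.W e)] ++ Rl (b + C.W e) v)
  | FA (p e f b v : ℕ) : Near1 C (Pl p f b ++ [Reg.R b v]) (Pl p f b ++ [Reg.RT e b v])
  | ATh (p e f b v : ℕ) : Near1 C (Pl p f b ++ [Reg.RT e b v]) (Pl p f b ++ [Reg.RTh e b v])

/-- what the near lemma needs for one cell `[f, v)` with boundary `b`, in one of the pairs of
states; `μ` is an absolute constant, `β` the multiplicity of the random block. -/
structure CellHyp (C : Codes) (p e f b v μ β : ℕ) : Prop where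
  hf : f ≤ b
  hv : b + C.W e ≤ v
  X0 : (C.X p 0).card ≤ 1
  Y0 : (C.Y 0).card ≤ 1
  hmod : ∀ x ∈ C.X p (b - f), C.P p (b + C.W e - f) x ≡ C.P p (b - f) x [MOD 2 ^ (b - f)]
  PP : f < b → PB C (Reg.P p f b) (Reg.P p f b) μ
  RR : b < v → PB C (Reg.R b v) (Reg.R b v) μ
  RR' : b + C.W e < v → PB C (Reg.R (b + C.W e) v) (Reg.R (b + C.W e) v) μ
  PTPT : PB C (Reg.PT p e f b) (Reg.PT p e f b) β
  PTP : PB C (Reg.PT p e f b) (Reg.P p f (b + C.W e)) β
  RTRT : PB C (Reg.RT e b v) (Reg.RT e b v) β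
  RRT : PB C (Reg.R b v) (Reg.RT e b v) β
  RTRTh : PB C (Reg.RT e b v) (Reg.RTh e b v) β
  RS : RSB C e (v - b) β

lemma above_single {v : ℕ} {r : Reg} (h : v ≤ r.bot) : Above v [r] := by
  intro s hs
  rw [List.mem_singleton] at hs
  rw [hs]; exact h

lemma above_nil {v : ℕ} : Above v [] := by
  intro s hs
  simp at hs

lemma NB_Pl {p f b μ : ℕ} (h1 : 1 ≤ μ) (hPP : f < b → PB C (Reg.P p f b) (Reg.P p f b) μ) :
    NB C (Pl p f b) (Pl p f b) b μ := by
  unfold Pl
  split_ifs with h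
  · exact NB_single (r := Reg.P p f b) rfl rfl h.le (hPP h)
  · exact NB_nil.mono h1

/-- an empty region against nothing -/
lemma NB_empty_right {r : Reg} {v : ℕ} (h : (r.V C).card ≤ 1) : NB C [r] [] v 1 := by
  intro f f' ν
  refine (card_filter_le _ _).trans ?_
  rw [card_product, card_Vs, card_Vs]
  simpa using h

lemma NB.of_same_empty {r : Reg} {v : ℕ} (h : (r.V C).card ≤ 1) : NB C [r] [r] v 1 := by
  intro f f' ν
  refine (card_filter_le _ _).trans ?_
  rw [card_product, card_Vs]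
  simp only [List.map_cons, List.map_nil, List.prod_cons, List.prod_nil, mul_one]
  nlinarith

lemma NB_R_same {b v μ : ℕ} (hbv : b ≤ v) (h1 : 1 ≤ μ) (Y0 : (C.Y 0).card ≤ 1)
    (RR : b < v → PB C (Reg.R b v) (Reg.R b v) μ) : NB C [Reg.R b v] [Reg.R b v] v μ := by
  rcases Nat.eq_or_lt_of_le hbv with rfl | h
  · refine (NB.of_same_empty ?_).mono h1
    simpa [Reg.V] using Y0
  · exact NB_single (r := Reg.R b v) rfl rfl hbv (RR h)

lemma NB_BB {p e f b v μ β : ℕ} (h1 : 1 ≤ μ) (H : CellHyp C p e f b v μ β) :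
    NB C [Reg.PT p e f b, Reg.R (b + C.W e) v] [Reg.PT p e f b, Reg.R (b + C.W e) v] v
      (β * μ) := by
  have hA : NB C [Reg.PT p e f b] [Reg.PT p e f b] (b + C.W e) β :=
    NB_single (r := Reg.PT p e f b) rfl rfl (by have := H.hf; simp only [Reg.bot, Reg.top]; omega)
      H.PTPT
  exact NB.append hA (NB_R_same H.hv h1 H.Y0 H.RR') H.hv (above_single le_rfl)
    (above_single le_rfl)

lemma NB_BF {p e f b v μ β : ℕ} (h1 : 1 ≤ μ) (H : CellHyp C p e f b v μ β) :
    NB C [Reg.PT p e f b, Reg.R (b + C.W e) v] ([Reg.P p f (b + C.W e)] ++ Rl (b + C.W e) v) v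
      (β * μ) := by
  have hA : NB C [Reg.PT p e f b] [Reg.P p f (b + C.W e)] (b + C.W e) β :=
    NB_single (r := Reg.PT p e f b) rfl rfl (by have := H.hf; simp only [Reg.bot, Reg.top]; omega)
      H.PTP
  have hv := H.hv
  unfold Rl
  split_ifs with h
  · exact NB.append hA (NB_R_same H.hv h1 H.Y0 H.RR') hv (above_single le_rfl)
      (above_single le_rfl)
  · have hB : NB C [Reg.R (b + C.W e) v] [] v 1 := by
      refine NB_empty_right ?_
      have : v - (b + C.W e) = 0 := by omega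
      simpa [Reg.V, this] using H.Y0
    exact (NB.append hA hB hv (above_single le_rfl) above_nil).mono (Nat.mul_le_mul_left _ h1)

lemma NB_FF {p f b v μ : ℕ} (h1 : 1 ≤ μ) (hbv : b ≤ v)
    (hPP : f < b → PB C (Reg.P p f b) (Reg.P p f b) μ)
    (hRR : b < v → PB C (Reg.R b v) (Reg.R b v) μ) :
    NB C (Pl p f b ++ Rl b v) (Pl p f b ++ Rl b v) v (μ * μ) := by
  unfold Rl
  split_ifs with h
  · exact NB.append (NB_Pl h1 hPP) (NB_single (r := Reg.R b v) rfl rfl hbv (hRR h)) hbv
      (above_single le_rfl) (above_single le_rfl)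
  · exact (NB.append (NB_Pl h1 hPP) NB_nil hbv above_nil above_nil).mono
      (Nat.mul_le_mul_left _ h1)

lemma NB_AA {p f b v μ B : ℕ} {r r' : Reg} (h1 : 1 ≤ μ) (hbv : b ≤ v)
    (hr : r.bot = b) (hr' : r'.bot = b) (ht : r.top C = v) (ht' : r'.top C = v)
    (hPP : f < b → PB C (Reg.P p f b) (Reg.P p f b) μ)
    (hRR : PB C r r' B) :
    NB C (Pl p f b ++ [r]) (Pl p f b ++ [r']) v (μ * B) := by
  have h2 : NB C [r] [r'] v B := by
    have := NB_single (r := r) (r' := r') (by rw [hr, hr']) (by rw [ht, ht'])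
      (by rw [hr, ht]; exact hbv) hRR
    rwa [ht] at this
  exact NB.append (NB_Pl h1 hPP) h2 hbv (above_single hr.ge) (above_single hr'.ge)

lemma NB_ThB' {p e f b v μ β : ℕ} (h1 : 1 ≤ μ) (H : CellHyp C p e f b v μ β) :
    NB C (Pl p f b ++ [Reg.RTh e b v]) [Reg.PT p e f b, Reg.R (b + C.W e) v] v (μ * β) := by
  unfold Pl
  split_ifs with h
  · exact NB_ThB h H.hv (H.PP h) H.hmod H.RS
  · have hfb : f = b := by have := H.hf; omega
    subst hfb
    have := NB_ThB0 (p := p) H.hv H.X0 H.RS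
    exact NB.mono (by simpa using this) (by nlinarith)

/-- regions which appear in the rest states, with their bounds -/
def GoodRest (C : Codes) (μ : ℕ) (A : List Reg) : Prop :=
  ∀ r ∈ A, r.bot ≤ r.top C ∧ PB C r r μ

lemma NB_rest {μ : ℕ} : ∀ {A : List Reg} {u v : ℕ}, Chain C u A v →
    GoodRest C μ A → NB C A A v (μ ^ A.length)
  | [], u, v, _, _ => by simpa using NB_nil
  | r :: A, u, v, hc, hA => by
    obtain ⟨h1, h2, h3⟩ := hc
    have ih := NB_rest h3 (fun s hs => hA s (List.mem_cons_of_mem _ hs))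
    have h4 : NB C [r] [r] (r.top C) μ :=
      NB_single rfl rfl (hA r List.mem_cons_self).1 (hA r List.mem_cons_self).2
    have h5 := NB.append h4 ih h3.le h3.above h3.above
    rw [List.length_cons, pow_succ, mul_comm]
    exact h5

end Pool.Agent.ETS
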