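import Mathlib

/-!
# E-T (MP_12a1af_nt), project T*: the runs of a function on an interval, as a list
-/

namespace Pool.Agent.ETS

variable {α : Type*} [DecidableEq α] (φ : ℕ → α)

omit [DecidableEq α] in
lemma rend_ex (u w : ℕ) : ∃ t, u < t ∧ (w ≤ t ∨ φ t ≠ φ u) :=
  ⟨max w (u + 1), by omega, Or.inl (le_max_left _ _)⟩

/-- end of the run starting at `u`, at most `w` -/
def rend (u w : ℕ) : ℕ := Nat.find (rend_ex φ u w)

lemma lt_rend (u w : ℕ) : u < rend φ u w := (Nat.find_spec (rend_ex φ u w)).1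

lemma rend_spec (u w : ℕ) : w ≤ rend φ u w ∨ φ (rend φ u w) ≠ φ u :=
  (Nat.find_spec (rend_ex φ u w)).2

lemma of_lt_rend {u w t : ℕ} (h1 : u ≤ t) (h2 : t < rend φ u w) : φ t = φ u := by
  rcases Nat.eq_or_lt_of_le h1 with rfl | h1
  · rfl
  by_contra h
  exact Nat.find_min (rend_ex φ u w) h2 ⟨h1, Or.inr h⟩

lemma rend_le {u w : ℕ} (h : u < w) : rend φ u w ≤ w :=
  Nat.find_min' _ ⟨h, Or.inl le_rfl⟩

lemma rend_eq {u w e : ℕ} (h1 : u < e) (h2 : e ≤ w) (h3 : ∀ t, u ≤ t → t < e → φ t = φ u)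
    (h4 : e = w ∨ φ e ≠ φ u) : rend φ u w = e := by
  apply le_antisymm
  · exact Nat.find_min' _ ⟨h1, h4.imp (fun h => h.ge) id⟩
  · by_contra h
    push Not at h
    rcases rend_spec φ u w with h5 | h5
    · omega
    · exact h5 (h3 _ (lt_rend φ u w).le h)

/-- the runs on `[u, w)` -/
def runs (w u : ℕ) : List (α × ℕ × ℕ) :=
  if h : u < w then (φ u, u, rend φ u w) :: runs w (rend φ u w) else []
termination_by w - u
decreasing_by
  have := lt_rend φ u w
  omega

lemma runs_of_le {w u : ℕ} (h : w ≤ u) : runs φ w u = [] := by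
  rw [runs, dif_neg (by omega)]

lemma runs_of_lt {w u : ℕ} (h : u < w) :
    runs φ w u = (φ u, u, rend φ u w) :: runs φ w (rend φ u w) := by
  rw [runs, dif_pos h]

/-- a run ends at `m` (inside `[u, w]`) -/
def IsCut (u w m : ℕ) : Prop := m = u ∨ m = w ∨ (0 < m ∧ φ (m - 1) ≠ φ m)

lemma rend_le_cut {u w m : ℕ} (hum : u < m) (hmw : m ≤ w) (hc : IsCut φ u w m) :
    rend φ u w ≤ m ∧ rend φ u m = rend φ u w := by
  have hle : rend φ u w ≤ m := by
    rcases hc with h | h | ⟨h0, h⟩
    · omega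
    · rw [h]; exact rend_le φ (by omega)
    · by_contra h1
      push Not at h1
      have e1 := of_lt_rend φ (show u ≤ m - 1 by omega) (show m - 1 < rend φ u w by omega)
      have e2 := of_lt_rend φ (show u ≤ m by omega) h1
      exact h (e1.trans e2.symm)
  refine ⟨hle, ?_⟩
  refine rend_eq φ (lt_rend φ u w) hle (fun t h1 h2 => of_lt_rend φ h1 h2) ?_
  rcases rend_spec φ u w with h | h
  · left
    have := rend_le φ (show u < w by omega)
    omega
  · exact Or.inr h

/-- splitting the list of runs at a cut -/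
lemma runs_split : ∀ (n u w m : ℕ), m - u ≤ n → u ≤ m → m ≤ w → IsCut φ u w m →
    runs φ w u = runs φ m u ++ runs φ w m
  | 0, u, w, m, hn, hum, hmw, _ => by
    have : m = u := by omega
    rw [this, runs_of_le φ le_rfl]
    rfl
  | n + 1, u, w, m, hn, hum, hmw, hc => by
    rcases Nat.eq_or_lt_of_le hum with rfl | hlt
    · rw [runs_of_le φ le_rfl]; rfl
    obtain ⟨h1, h2⟩ := rend_le_cut φ hlt hmw hc
    rw [runs_of_lt φ (show u < w by omega), runs_of_lt φ hlt, h2, List.cons_append]
    congr 1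
    have h3 := lt_rend φ u w
    refine runs_split n _ w m (by omega) h1 hmw ?_
    rcases hc with h | h | h
    · omega
    · exact Or.inr (Or.inl h)
    · exact Or.inr (Or.inr h)

lemma runs_split' {u w m : ℕ} (hum : u ≤ m) (hmw : m ≤ w) (hc : IsCut φ u w m) :
    runs φ w u = runs φ m u ++ runs φ w m :=
  runs_split φ _ u w m le_rfl hum hmw hc

/-- runs depend only on the values on `[u, w)` -/
lemma runs_congr {ψ : ℕ → α} : ∀ (n u w : ℕ), w - u ≤ n → (∀ t, u ≤ t → t < w → φ t = ψ t) →
    runs φ w u = runs ψ w u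
  | 0, u, w, hn, _ => by
    rw [runs_of_le φ (by omega), runs_of_le ψ (by omega)]
  | n + 1, u, w, hn, h => by
    rcases lt_or_ge u w with hlt | hge
    · have e : rend ψ u w = rend φ u w := by
        refine rend_eq ψ (lt_rend φ u w) (rend_le φ hlt) ?_ ?_
        · intro t h1 h2
          have := rend_le φ hlt
          rw [← h t h1 (by omega), ← h u le_rfl hlt]
          exact of_lt_rend φ h1 h2
        · rcases rend_spec φ u w with h1 | h1
          · left; have := rend_le φ hlt; omega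
          · rcases Nat.eq_or_lt_of_le (rend_le φ hlt) with h2 | h2
            · exact Or.inl h2
            · right
              rw [← h _ (lt_rend φ u w).le h2, ← h u le_rfl hlt]
              exact h1
      rw [runs_of_lt φ hlt, runs_of_lt ψ hlt, e, h u le_rfl hlt]
      congr 1
      have h3 := lt_rend φ u w
      exact runs_congr n _ w (by omega) (fun t h1 h2 => h t (by omega) h2)
    · rw [runs_of_le φ hge, runs_of_le ψ hge]

lemma runs_congr' {ψ : ℕ → α} {u w : ℕ} (h : ∀ t, u ≤ t → t < w → φ t = ψ t) :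
    runs φ w u = runs ψ w u := runs_congr φ _ u w le_rfl h

lemma runs_const {u w : ℕ} {a : α} (h : u < w) (hc : ∀ t, u ≤ t → t < w → φ t = a) :
    runs φ w u = [(a, u, w)] := by
  have e : rend φ u w = w := rend_eq φ h le_rfl
    (fun t h1 h2 => by rw [hc t h1 h2, hc u le_rfl h]) (Or.inl rfl)
  rw [runs_of_lt φ h, e, runs_of_le φ le_rfl, hc u le_rfl h]

/-- what an element of the list of runs is -/
def IsRun (u w : ℕ) (q : α × ℕ × ℕ) : Prop :=
  u ≤ q.2.1 ∧ q.2.1 < q.2.2 ∧ q.2.2 ≤ w ∧ (∀ t, q.2.1 ≤ t → t < q.2.2 → φ t = q.1) ∧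
    (q.2.1 = u ∨ φ (q.2.1 - 1) ≠ q.1) ∧ (q.2.2 = w ∨ φ q.2.2 ≠ q.1)

lemma isRun_of_mem : ∀ (n u w : ℕ), w - u ≤ n → ∀ q ∈ runs φ w u, IsRun φ u w q
  | 0, u, w, hn, q, hq => by
    rw [runs_of_le φ (by omega)] at hq
    simp at hq
  | n + 1, u, w, hn, q, hq => by
    rcases lt_or_ge u w with hlt | hge
    · rw [runs_of_lt φ hlt, List.mem_cons] at hq
      have h3 := lt_rend φ u w
      have h4 := rend_le φ hlt
      rcases hq with rfl | hq
      · refine ⟨le_rfl, h3, h4, fun t h1 h2 => of_lt_rend φ h1 h2, Or.inl rfl, ?_⟩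
        rcases rend_spec φ u w with h1 | h1
        · left; show rend φ u w = w; omega
        · exact Or.inr h1
      · obtain ⟨h5, h6, h7, h8, h9, h10⟩ := isRun_of_mem n _ w (by omega) q hq
        refine ⟨by omega, h6, h7, h8, ?_, h10⟩
        rcases h9 with h9 | h9
        · right
          have h11 : φ (q.2.1 - 1) = φ u := by
            rw [h9]
            exact of_lt_rend φ (w := w) (by omega) (by omega)
          rcases rend_spec φ u w with h12 | h12
          · omega
          · rw [h11]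
            intro h13
            have h14 := h8 q.2.1 le_rfl h6
            rw [h9] at h14
            exact h12 (h14.trans h13.symm)
        · exact Or.inr h9
    · rw [runs_of_le φ hge] at hq
      simp at hq

lemma isRun_of_mem' {u w : ℕ} {q : α × ℕ × ℕ} (hq : q ∈ runs φ w u) : IsRun φ u w q :=
  isRun_of_mem φ _ u w le_rfl q hq

end Pool.Agent.ETS
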