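import Mathlib
import Pool.Agent.Helper16.ETL.Near3
import Pool.Agent.Helper16.ETL.Runs
import Pool.Agent.Helper16.ETL.Kinds

/-!
# E-T (MP_12a1af_nt), project T*: the lists of regions of the schedule
-/

open Finset

namespace Pool.Agent.ETS

open Pool.Agent.Helper29.ETK (Kid kid wb ep Wd av ab ag ak CC Hb nb wcomp)

/-- index of the P code of the anchor `g` -/
def pidx (c g : ℕ) : ℕ := if g = 0 then 0 else ep c g + 1

/-- the regions of one run -/
def toRegs (c t : ℕ) : Kid × ℕ × ℕ → List Reg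
  | (.P g, _, e) => [Reg.P (pidx c g) g e]
  | (.PT g b, _, _) => if av c t = b + Wd c b then
      [Reg.PT (pidx c g) (ep c b) g b, Reg.R (b + Wd c b) (b + Wd c b)] else
      [Reg.PT (pidx c g) (ep c b) g b]
  | (.R v, s, _) => [Reg.R s v]
  | (.RT v, s, _) => [Reg.RT (ep c s) s v]
  | (.RTh v, s, _) => [Reg.RTh (ep c s) s v]

/-- the regions below the window at the time `t` -/
def body (c t : ℕ) : List Reg := (runs (kid c t) (wb c t) 0).flatMap (toRegs c t)

/-- the window -/
def winReg (c t : ℕ) : Reg :=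
  if wcomp c t then Reg.winC (ep c (wb c t)) (wb c t) (nb c (wb c t)) t else Reg.win (wb c t) t

/-- the layout at the time `t` -/
def layL (c t : ℕ) : List Reg := body c t ++ [winReg c t]

variable {C : Codes} {c t : ℕ}

/-- the first and the last position of a run -/
lemma run_P (H : KidOK c t) {w s e g : ℕ} (hw : w ≤ wb c t)
    (h : IsRun (kid c t) 0 w (.P g, s, e)) : s = g := by
  obtain ⟨-, h2, h3, h4, h5, -⟩ := h
  simp only at h2 h3 h4 h5
  obtain ⟨h6, h7⟩ := H.P s g (by omega) (h4 s le_rfl h2)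
  rcases h5 with h5 | h5
  · omega
  · by_contra hne
    apply h5
    rcases Nat.eq_zero_or_pos s with h0 | h0
    · omega
    · exact h7 (s - 1) (by omega) (by omega)

lemma run_PT (H : KidOK c t) {w s e g b : ℕ} (hw : w ≤ wb c t)
    (h : IsRun (kid c t) 0 w (.PT g b, s, e)) (hb : b + Wd c b ≤ w) :
    s = g ∧ e = b + Wd c b := by
  obtain ⟨-, h2, h3, h4, h5, h6⟩ := h
  simp only at h2 h3 h4 h5 h6
  obtain ⟨h7, h8, h9, h10, h11, h12, h13⟩ := H.PT s g b (by omega) (h4 s le_rfl h2)
  constructor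
  · rcases h5 with h5 | h5
    · omega
    · by_contra hne
      apply h5
      rcases Nat.eq_zero_or_pos s with h0 | h0
      · omega
      · exact h12 (s - 1) (by omega) (by omega)
  · apply le_antisymm
    · by_contra hne
      push Not at hne
      have h14 := h4 (b + Wd c b) (by omega) hne
      have := (H.PT (b + Wd c b) g b (by omega) h14).2.2.1
      omega
    · rcases h6 with h6 | h6
      · omega
      · by_contra hne
        push Not at hne
        exact h6 (h12 e (by omega) hne)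

lemma run_R (H : KidOK c t) {w s e v : ℕ} (hw : w ≤ wb c t)
    (h : IsRun (kid c t) 0 w (.R v, s, e)) (hv : v ≤ w) : e = v := by
  obtain ⟨-, h2, h3, h4, h5, h6⟩ := h
  simp only at h2 h3 h4 h5 h6
  obtain ⟨h7, h8, h9⟩ := H.R s v (by omega) (h4 s le_rfl h2)
  apply le_antisymm
  · by_contra hne
    push Not at hne
    have := (H.R v v (by omega) (h4 v (by omega) hne)).1
    omega
  · rcases h6 with h6 | h6
    · omega
    · by_contra hne
      push Not at hne
      exact h6 (h9 e (by omega) hne)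

lemma run_RT (H : KidOK c t) {w s e v : ℕ} (hw : w ≤ wb c t)
    (h : IsRun (kid c t) 0 w (.RT v, s, e)) (hv : v ≤ w) : e = v := by
  obtain ⟨-, h2, h3, h4, h5, h6⟩ := h
  simp only at h2 h3 h4 h5 h6
  obtain ⟨h7, h8, h9⟩ := H.RT s v (by omega) (h4 s le_rfl h2)
  apply le_antisymm
  · by_contra hne
    push Not at hne
    have := (H.RT v v (by omega) (h4 v (by omega) hne)).1
    omega
  · rcases h6 with h6 | h6
    · omega
    · by_contra hne
      push Not at hne
      exact h6 (h9 e (by omega) hne)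

lemma run_RTh (H : KidOK c t) {w s e v : ℕ} (hw : w ≤ wb c t)
    (h : IsRun (kid c t) 0 w (.RTh v, s, e)) (hv : v ≤ w) : e = v := by
  obtain ⟨-, h2, h3, h4, h5, h6⟩ := h
  simp only at h2 h3 h4 h5 h6
  obtain ⟨h7, h8, h9⟩ := H.RTh s v (by omega) (h4 s le_rfl h2)
  apply le_antisymm
  · by_contra hne
    push Not at hne
    have := (H.RTh v v (by omega) (h4 v (by omega) hne)).1
    omega
  · rcases h6 with h6 | h6
    · omega
    · by_contra hne
      push Not at hne
      exact h6 (h9 e (by omega) hne)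

/-- the end of a region of `R` kind or of kind `PT` inside `[0, w)` is at most `w`, if `w` is a
cut -/
def GoodCut (c t w : ℕ) : Prop := w ≤ wb c t ∧ (w = wb c t ∨ w = 0 ∨ kid c t (w - 1) ≠ kid c t w)

lemma cut_R (H : KidOK c t) {w s v : ℕ} (hw : GoodCut c t w) (hs : s < w)
    (h : kid c t s = .R v) : v ≤ w := by
  obtain ⟨hw1, hw2⟩ := hw
  obtain ⟨h7, h8, h9⟩ := H.R s v (by omega) h
  rcases hw2 with rfl | rfl | hw2
  · exact h8
  · omega
  · by_contra hne
    push Not at hne
    exact hw2 ((h9 (w - 1) (by omega) (by omega)).trans (h9 w (by omega) hne).symm)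

lemma cut_RT (H : KidOK c t) {w s v : ℕ} (hw : GoodCut c t w) (hs : s < w)
    (h : kid c t s = .RT v) : v ≤ w := by
  obtain ⟨hw1, hw2⟩ := hw
  obtain ⟨h7, h8, h9⟩ := H.RT s v (by omega) h
  rcases hw2 with rfl | rfl | hw2
  · exact h8
  · omega
  · by_contra hne
    push Not at hne
    exact hw2 ((h9 (w - 1) (by omega) (by omega)).trans (h9 w (by omega) hne).symm)

lemma cut_RTh (H : KidOK c t) {w s v : ℕ} (hw : GoodCut c t w) (hs : s < w)
    (h : kid c t s = .RTh v) : v ≤ w := by
  obtain ⟨hw1, hw2⟩ := hw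
  obtain ⟨h7, h8, h9⟩ := H.RTh s v (by omega) h
  rcases hw2 with rfl | rfl | hw2
  · exact h8
  · omega
  · by_contra hne
    push Not at hne
    exact hw2 ((h9 (w - 1) (by omega) (by omega)).trans (h9 w (by omega) hne).symm)

lemma cut_PT (H : KidOK c t) {w s g b : ℕ} (hw : GoodCut c t w) (hs : s < w)
    (h : kid c t s = .PT g b) : b + Wd c b ≤ w := by
  obtain ⟨hw1, hw2⟩ := hw
  obtain ⟨h7, h8, h9, h10, h11, h12, h13⟩ := H.PT s g b (by omega) h
  rcases hw2 with rfl | rfl | hw2
  · omega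
  · omega
  · by_contra hne
    push Not at hne
    exact hw2 ((h12 (w - 1) (by omega) (by omega)).trans (h12 w (by omega) hne).symm)

lemma chain_flatMap {φ : ℕ → Kid} {T : Kid × ℕ × ℕ → List Reg} : ∀ (n u w : ℕ), w - u ≤ n → u ≤ w →
    (∀ q ∈ runs φ w u, Chain C q.2.1 (T q) q.2.2) → Chain C u ((runs φ w u).flatMap T) w
  | 0, u, w, hn, hu, _ => by
    have : u = w := by omega
    subst this
    rw [runs_of_le φ le_rfl]
    rfl
  | n + 1, u, w, hn, hu, h => by
    rcases Nat.eq_or_lt_of_le hu with rfl | hlt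
    · rw [runs_of_le φ le_rfl]
      rfl
    · have h3 := lt_rend φ u w
      have h4 := rend_le φ hlt
      rw [runs_of_lt φ hlt] at h ⊢
      rw [List.flatMap_cons]
      refine Chain.append (v := rend φ u w) (h _ List.mem_cons_self) ?_
      exact chain_flatMap n _ w (by omega) h4 (fun q hq => h q (List.mem_cons_of_mem _ hq))

lemma pow_ep (hW : ∀ e, C.W e = CC c ^ e) (b : ℕ) : C.W (ep c b) = Wd c b := hW _

lemma chain_toRegs (hW : ∀ e, C.W e = CC c ^ e) (H : KidOK c t) {w : ℕ} (hw : GoodCut c t w)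
    {q : Kid × ℕ × ℕ} (hq : q ∈ runs (kid c t) w 0) : Chain C q.2.1 (toRegs c t q) q.2.2 := by
  have hr := isRun_of_mem' _ hq
  obtain ⟨k, s, e⟩ := q
  have hr' := hr
  obtain ⟨-, h2, h3, h4, -, -⟩ := hr'
  simp only at h2 h3 h4
  have hwt := hw.1
  cases k with
  | P g =>
    have := run_P H hwt hr
    subst this
    exact ⟨rfl, h2.le, rfl⟩
  | PT g b =>
    have h5 := cut_PT H hw (by omega) (h4 s le_rfl h2)
    obtain ⟨rfl, rfl⟩ := run_PT H hwt hr h5
    obtain ⟨h7, h8, h9, h10, h11, h12, h13⟩ := H.PT s s b (by omega) (h4 s le_rfl h2)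
    simp only [toRegs]
    split_ifs with h6
    · refine ⟨rfl, ?_, ?_, ?_, ?_⟩
      · simp only [Reg.bot, Reg.top]; omega
      · simp only [Reg.bot, Reg.top, pow_ep hW]
      · simp only [Reg.bot, Reg.top]; omega
      · simp only [Reg.top]
        rfl
    · refine ⟨rfl, ?_, ?_⟩
      · simp only [Reg.bot, Reg.top]; omega
      · simp only [Reg.top, pow_ep hW]
        rfl
  | R v =>
    have h5 := cut_R H hw (by omega) (h4 s le_rfl h2)
    have := run_R H hwt hr h5
    subst this
    exact ⟨rfl, h2.le, rfl⟩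
  | RT v =>
    have h5 := cut_RT H hw (by omega) (h4 s le_rfl h2)
    have := run_RT H hwt hr h5
    subst this
    exact ⟨rfl, h2.le, rfl⟩
  | RTh v =>
    have h5 := cut_RTh H hw (by omega) (h4 s le_rfl h2)
    have := run_RTh H hwt hr h5
    subst this
    exact ⟨rfl, h2.le, rfl⟩

/-- runs between two cuts are runs of the whole -/
lemma mem_runs_of_cuts {φ : ℕ → Kid} {u m w : ℕ} (hum : u ≤ m) (hmw : m ≤ w)
    (h1 : IsCut φ 0 w u) (h2 : IsCut φ u w m) {q : Kid × ℕ × ℕ} (hq : q ∈ runs φ m u) :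
    q ∈ runs φ w 0 := by
  rw [runs_split' φ (Nat.zero_le u) (hum.trans hmw) h1, runs_split' φ hum hmw h2]
  simp [hq]

theorem chain_body (hW : ∀ e, C.W e = CC c ^ e) (H : KidOK c t) :
    Chain C 0 (body c t) (wb c t) :=
  chain_flatMap _ 0 _ le_rfl (Nat.zero_le _)
    (fun _ hq => chain_toRegs hW H ⟨le_rfl, Or.inl rfl⟩ hq)

theorem chain_layL (hW : ∀ e, C.W e = CC c ^ e) (H : KidOK c t) :
    Chain C 0 (layL c t) t := by
  refine Chain.append (chain_body hW H) ?_
  unfold winReg
  split_ifs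
  · exact ⟨rfl, H.wbt, rfl⟩
  · exact ⟨rfl, H.wbt, rfl⟩

end Pool.Agent.ETS
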