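import Mathlib
import Pool.Agent.Helper16.ETL.Body

/-!
# E-T (MP_12a1af_nt), project T*: the near lemma for the cell in action
-/

open Finset

namespace Pool.Agent.ETS

open Pool.Agent.Helper29.ETK (Kid kid wb ep Wd av ab ag ak CC Hb nb wcomp)

/-- bounds for pairs of regions, used in the near lemma -/
structure NearCodes (c e1 : ℕ) (C : Codes) (μ : ℕ) (β : ℕ → ℕ) : Prop where
  W : ∀ e, C.W e = CC c ^ e
  one : 1 ≤ μ
  oneB : ∀ e, 1 ≤ β e
  X0 : ∀ p, (C.X p 0).card ≤ 1
  Y0 : (C.Y 0).card ≤ 1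
  res : ∀ p l k x, x ∈ C.X p l → l ≤ k → C.P p k x ≡ C.P p l x [MOD 2 ^ l]
  PP : ∀ p f b, f < b → PB C (Reg.P p f b) (Reg.P p f b) μ
  RR : ∀ b v, b < v → PB C (Reg.R b v) (Reg.R b v) μ
  ThTh : ∀ e b v, e1 ≤ e → b + C.W e ≤ v → C.W e ∣ v - b →
    PB C (Reg.RTh e b v) (Reg.RTh e b v) μ
  RTRT : ∀ e b v, e1 ≤ e → b + C.W e ≤ v → C.W e ∣ v - b →
    PB C (Reg.RT e b v) (Reg.RT e b v) (β e)
  RRT : ∀ e b v, e1 ≤ e → b + C.W e ≤ v → C.W e ∣ v - b →
    PB C (Reg.R b v) (Reg.RT e b v) (β e)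
  RTRTh : ∀ e b v, e1 ≤ e → b + C.W e ≤ v → C.W e ∣ v - b →
    PB C (Reg.RT e b v) (Reg.RTh e b v) (β e)
  RS : ∀ e l, e1 ≤ e → C.W e ≤ l → C.W e ∣ l → RSB C e l (β e)
  PTPT : ∀ g b, e1 ≤ ep c b → g ≤ b → Wd c b ∣ b → Wd c b ∣ g → (g = 0 ∨ ep c g = ep c b) →
    PB C (Reg.PT (pidx c g) (ep c b) g b) (Reg.PT (pidx c g) (ep c b) g b) (β (ep c b))
  PTP : ∀ g b, e1 ≤ ep c b → g ≤ b → Wd c b ∣ b → Wd c b ∣ g → (g = 0 ∨ ep c g = ep c b) →
    PB C (Reg.PT (pidx c g) (ep c b) g b) (Reg.P (pidx c g) g (b + Wd c b)) (β (ep c b))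

/-- the regions of a cell in the state `σ` -/
def cellRegs (c g b v σ : ℕ) : List Reg :=
  if σ = 0 then Pl (pidx c g) g b ++ [Reg.RTh (ep c b) b v] else
  if σ = 1 then [Reg.PT (pidx c g) (ep c b) g b, Reg.R (b + Wd c b) v] else
  if σ = 2 then [Reg.P (pidx c g) g (b + Wd c b)] ++
    (if b + Wd c b < v then [Reg.R (b + Wd c b) v] else []) else
  if σ = 3 then [Reg.P (pidx c g) g (b + Wd c b)] ++
    (if b + Wd c b < v then [Reg.RT (ep c (b + Wd c b)) (b + Wd c b) v] else []) else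
  [Reg.P (pidx c g) g (b + Wd c b)] ++
    (if b + Wd c b < v then [Reg.RTh (ep c (b + Wd c b)) (b + Wd c b) v] else [])

variable {C : Codes} {c t : ℕ}

lemma Wd_pos (c b : ℕ) : 0 < Wd c b := by
  unfold Wd CC; positivity

lemma runs_two {φ : ℕ → Kid} {u m w : ℕ} {k k' : Kid} (hu : u < m) (hm : m < w) (hk : k ≠ k')
    (h1 : ∀ s, u ≤ s → s < m → φ s = k) (h2 : ∀ s, m ≤ s → s < w → φ s = k') :
    runs φ w u = [(k, u, m), (k', m, w)] := by
  have hc : IsCut φ u w m := by
    refine Or.inr (Or.inr ⟨by omega, ?_⟩)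
    rw [h1 (m - 1) (by omega) (by omega), h2 m le_rfl hm]
    exact hk
  rw [runs_split' φ hu.le hm.le hc, runs_const φ hu h1, runs_const φ hm h2]
  rfl

lemma cell_regs {g b v σ : ℕ} (h : CellAt c t g b v σ) (hσ : σ ≤ 4) :
    (runs (kid c t) v g).flatMap (toRegs c t) = cellRegs c g b v σ := by
  have hW := Wd_pos c b
  have hg := h.hg
  have hb := h.hb
  have hgb : g < b + Wd c b := by omega
  obtain rfl | rfl | rfl | rfl | rfl : σ = 0 ∨ σ = 1 ∨ σ = 2 ∨ σ = 3 ∨ σ = 4 := by omega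
  · -- state 0
    have hk := h.kid
    simp only [cellKid, if_true] at hk
    simp only [cellRegs, if_true, Pl]
    split_ifs with hgb'
    · rw [runs_two (k := .P g) (k' := .RTh v) hgb' (show b < v by omega) (by simp)
        (fun s h1 h2 => by rw [hk s h1 (by omega), if_pos h2])
        (fun s h1 h2 => by rw [hk s (by omega) h2, if_neg (by omega)])]
      rfl
    · have : b = g := by omega
      subst this
      rw [runs_const (a := .RTh v) _ (show b < v by omega)
        (fun s h1 h2 => by rw [hk s h1 h2, if_neg (by omega)])]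
      rfl
  · -- state 1
    have hk := h.kid
    simp only [cellKid, one_ne_zero, if_false, if_true] at hk
    simp only [cellRegs, one_ne_zero, if_false, if_true]
    have hav := h.av rfl
    rcases Nat.eq_or_lt_of_le hb with hb' | hb'
    · rw [runs_const (a := .PT g b) _ (show g < v by omega)
        (fun s h1 h2 => by rw [hk s h1 h2, if_pos (by omega)])]
      simp only [List.flatMap_cons, List.flatMap_nil, List.append_nil, toRegs]
      rw [if_pos (by omega), hb']
    · rw [runs_two (k := .PT g b) (k' := .R v) hgb hb' (by simp)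
        (fun s h1 h2 => by rw [hk s h1 (by omega), if_pos h2])
        (fun s h1 h2 => by rw [hk s (by omega) h2, if_neg (by omega)])]
      simp only [List.flatMap_cons, List.flatMap_nil, List.append_nil, toRegs]
      rw [if_neg (by omega)]
      rfl
  all_goals
    have hk := h.kid
    simp only [cellKid] at hk
    norm_num at hk
    simp only [cellRegs]
    norm_num
    rcases Nat.eq_or_lt_of_le hb with hb' | hb'
    · rw [runs_const (a := .P g) _ (show g < v by omega)
        (fun s h1 h2 => by rw [hk s h1 h2, if_pos (by omega)]), if_neg (by omega)]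
      simp only [List.flatMap_cons, List.flatMap_nil, List.append_nil, toRegs, hb']
    · rw [if_pos hb']
      first
      | rw [runs_two (k := .P g) (k' := .R v) hgb hb' (by simp)
          (fun s h1 h2 => by rw [hk s h1 (by omega), if_pos h2])
          (fun s h1 h2 => by rw [hk s (by omega) h2, if_neg (by omega)])]
        rfl
      | rw [runs_two (k := .P g) (k' := .RT v) hgb hb' (by simp)
          (fun s h1 h2 => by rw [hk s h1 (by omega), if_pos h2])
          (fun s h1 h2 => by rw [hk s (by omega) h2, if_neg (by omega)])]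
        rfl
      | rw [runs_two (k := .P g) (k' := .RTh v) hgb hb' (by simp)
          (fun s h1 h2 => by rw [hk s h1 (by omega), if_pos h2])
          (fun s h1 h2 => by rw [hk s (by omega) h2, if_neg (by omega)])]
        rfl

/-- near bound for one cell -/
lemma NB_cell {e1 μ B : ℕ} {β : ℕ → ℕ} (HC : NearCodes c e1 C μ β) {g b v σ σ' : ℕ}
    (h : CellAt c t g b v σ) (hσ : σ ≤ 4) (hσ' : σ' ≤ 4)
    (hadj : σ = σ' ∨ σ = σ' + 1 ∨ σ' = σ + 1) (he : e1 ≤ ep c b)
    (he' : e1 ≤ ep c (b + Wd c b)) (hB : β (ep c b) ≤ B) (hB' : β (ep c (b + Wd c b)) ≤ B) :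
    NB C (cellRegs c g b v σ) (cellRegs c g b v σ') v (μ * μ * B) := by
  have hW := Wd_pos c b
  have hg := h.hg
  have hb := h.hb
  have hWb : C.W (ep c b) = Wd c b := HC.W _
  have hWb' : C.W (ep c (b + Wd c b)) = Wd c (b + Wd c b) := HC.W _
  have h1 := HC.one
  have hB1 : 1 ≤ B := (HC.oneB _).trans hB
  have hdvb : C.W (ep c b) ∣ v - b := by rw [hWb]; exact Nat.dvd_sub h.dv h.db
  have hdvb' : C.W (ep c (b + Wd c b)) ∣ v - (b + Wd c b) := by
    rw [hWb']; exact Nat.dvd_sub h.dv' h.db'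
  have hlt : b + Wd c b < v → b + Wd c b + C.W (ep c (b + Wd c b)) ≤ v := by
    intro h2
    have := Nat.le_of_dvd (by omega) hdvb'
    omega
  have m1 : μ ≤ μ * μ := by nlinarith
  have m2 : 1 ≤ μ * μ := by nlinarith
  -- the hypotheses for the cell `[g, v)` with `b`
  have hcell : CellHyp C (pidx c g) (ep c b) g b v μ B :=
    { hf := hg
      hv := by rw [hWb]; exact hb
      X0 := HC.X0 _
      Y0 := HC.Y0
      hmod := fun x hx => HC.res _ _ _ x hx (by omega)
      PP := fun h => HC.PP _ _ _ h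
      RR := fun h => HC.RR _ _ h
      RR' := fun h => HC.RR _ _ h
      PTPT := (HC.PTPT g b he hg h.db h.dg h.epg).mono hB
      PTP := by rw [hWb]; exact (HC.PTP g b he hg h.db h.dg h.epg).mono hB
      RTRT := (HC.RTRT _ _ _ he (by rw [hWb]; exact hb) hdvb).mono hB
      RRT := (HC.RRT _ _ _ he (by rw [hWb]; exact hb) hdvb).mono hB
      RTRTh := (HC.RTRTh _ _ _ he (by rw [hWb]; exact hb) hdvb).mono hB
      RS := by
        intro κ κ₂ ν
        exact (HC.RS _ _ he (by rw [hWb]; omega) hdvb κ κ₂ ν).trans hB }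
  have hPb : NB C (Pl (pidx c g) g b) (Pl (pidx c g) g b) b μ :=
    NB_Pl h1 (fun h => HC.PP _ _ _ h)
  have hPb' : NB C [Reg.P (pidx c g) g (b + Wd c b)] [Reg.P (pidx c g) g (b + Wd c b)]
      (b + Wd c b) μ :=
    NB_single (r := Reg.P (pidx c g) g (b + Wd c b)) rfl rfl
      (by simp only [Reg.bot, Reg.top]; omega) (HC.PP _ _ _ (by omega))
  -- upper part `[b + W, v)` in the states 2, 3, 4
  have hup : ∀ (r r' : Reg), r.bot = b + Wd c b → r'.bot = b + Wd c b → r.top C = v →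
      r'.top C = v → (b + Wd c b < v → PB C r r' (μ * B)) →
      NB C ([Reg.P (pidx c g) g (b + Wd c b)] ++ (if b + Wd c b < v then [r] else []))
        ([Reg.P (pidx c g) g (b + Wd c b)] ++ (if b + Wd c b < v then [r'] else [])) v
        (μ * (μ * B)) := by
    intro r r' e1' e2' e3' e4' hPBr
    by_cases h2 : b + Wd c b < v
    · rw [if_pos h2, if_pos h2]
      refine NB.append hPb' ?_ hb (above_single (by omega)) (above_single (by omega))
      have := NB_single (r := r) (r' := r') (by rw [e1', e2']) (by rw [e3', e4'])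
        (by rw [e1', e3']; exact hb) (hPBr h2)
      rwa [e3'] at this
    · rw [if_neg h2, if_neg h2]
      exact (NB.append hPb' NB_nil hb above_nil above_nil).mono
        (Nat.mul_le_mul_left _ (by nlinarith))
  have key : ∀ σ σ' : ℕ, σ ≤ 4 → σ' ≤ 4 → (σ = σ' ∨ σ = σ' + 1) →
      NB C (cellRegs c g b v σ') (cellRegs c g b v σ) v (μ * μ * B) := by
    intro σ σ' hσ hσ' hadj
    have hmul : μ * (μ * B) = μ * μ * B := by ring
    have hmul2 : μ * B ≤ μ * μ * B := Nat.mul_le_mul_right _ m1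
    obtain ⟨rfl, rfl⟩ | ⟨rfl, rfl⟩ | ⟨rfl, rfl⟩ | ⟨rfl, rfl⟩ | ⟨rfl, rfl⟩ | ⟨rfl, rfl⟩ |
      ⟨rfl, rfl⟩ | ⟨rfl, rfl⟩ | ⟨rfl, rfl⟩ : (σ' = 0 ∧ σ = 0) ∨ (σ' = 1 ∧ σ = 1) ∨
      (σ' = 2 ∧ σ = 2) ∨ (σ' = 3 ∧ σ = 3) ∨ (σ' = 4 ∧ σ = 4) ∨ (σ' = 0 ∧ σ = 1) ∨
      (σ' = 1 ∧ σ = 2) ∨ (σ' = 2 ∧ σ = 3) ∨ (σ' = 3 ∧ σ = 4) := by omega
    · -- (0,0)
      simp only [cellRegs, if_true]
      have := NB.append hPb (NB_single (r := Reg.RTh (ep c b) b v) rfl rfl
        (by simp only [Reg.bot, Reg.top]; omega)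
        (HC.ThTh _ _ _ he (by rw [hWb]; exact hb) hdvb)) (by simp only [Reg.top]; omega)
        (above_single le_rfl) (above_single le_rfl)
      exact this.mono (by nlinarith)
    · -- (1,1)
      have := NB_BB h1 hcell
      rw [hWb] at this
      simp only [cellRegs, one_ne_zero, if_false, if_true]
      exact this.mono (by rw [mul_comm]; exact hmul2)
    · -- (2,2)
      rw [← hmul]
      exact hup _ _ rfl rfl rfl rfl (fun h2 => (HC.RR _ _ h2).mono (by nlinarith))
    · -- (3,3)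
      rw [← hmul]
      exact hup _ _ rfl rfl rfl rfl (fun h2 =>
        ((HC.RTRT _ _ _ he' (hlt h2) hdvb').mono hB').mono (by nlinarith))
    · -- (4,4)
      rw [← hmul]
      exact hup _ _ rfl rfl rfl rfl (fun h2 =>
        (HC.ThTh _ _ _ he' (hlt h2) hdvb').mono (by nlinarith))
    · -- (0,1)
      have := NB_ThB' h1 hcell
      rw [hWb] at this
      simp only [cellRegs, one_ne_zero, if_false, if_true]
      exact this.mono hmul2
    · -- (1,2)
      have := NB_BF h1 hcell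
      rw [hWb] at this
      simp only [cellRegs, one_ne_zero, if_false, if_true]
      exact this.mono (by rw [mul_comm]; exact hmul2)
    · -- (2,3)
      rw [← hmul]
      exact hup _ _ rfl rfl rfl rfl (fun h2 =>
        ((HC.RRT _ _ _ he' (hlt h2) hdvb').mono hB').mono (by nlinarith))
    · -- (3,4)
      rw [← hmul]
      exact hup _ _ rfl rfl rfl rfl (fun h2 =>
        ((HC.RTRTh _ _ _ he' (hlt h2) hdvb').mono hB').mono (by nlinarith))
  rcases hadj with hadj | hadj | hadj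
  · exact (key σ σ' hσ hσ' (Or.inl hadj)).symm
  · exact (key σ σ' hσ hσ' (Or.inr hadj)).symm
  · exact key σ' σ hσ' hσ (Or.inr hadj)

end Pool.Agent.ETS
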