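import Mathlib
import Pool.Agent.Helper16.ETL.Near3

/-!
# E-T (MP_12a1af_nt), project T*: the near lemma, the windows
-/

open Finset

namespace Pool.Agent.ETS

variable {C : Codes}

/-- number of pairs of window variables with a given sum -/
def WP (C : Codes) (r r' : Reg) (Bw : ℕ) : Prop :=
  ∀ κ κ' ν : ℕ, ((r.V C ×ˢ r'.V C).filter (fun q =>
    2 ^ r.bot * ((r.c C q.1 + κ) % 2 ^ (r.len C)) +
      2 ^ r'.bot * ((r'.c C q.2 + κ') % 2 ^ (r'.len C)) = ν)).card ≤ Bw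

lemma NBt_of_WP {r r' : Reg} {Bw : ℕ} (h : WP C r r' Bw) : NBt C [r] [r'] Bw := by
  intro f f' ν
  refine le_trans ?_ (h (f []) (f' []) ν)
  refine card_le_card_of_surjOn (fun q => ([q.1], [q.2])) ?_
  intro q hq
  simp only [coe_filter, Set.mem_ofPred_eq, mem_product] at hq
  obtain ⟨⟨h1, h2⟩, h3⟩ := hq
  obtain ⟨a, ha, haV⟩ := mem_Vs_single.mp h1
  obtain ⟨a', ha', haV'⟩ := mem_Vs_single.mp h2
  refine ⟨(a, a'), ?_, ?_⟩
  · simp only [coe_filter, Set.mem_ofPred_eq, mem_product]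
    refine ⟨⟨haV, haV'⟩, ?_⟩
    rw [ha, ha', val_single, val_single] at h3
    exact h3
  · rw [Prod.ext_iff]
    exact ⟨ha.symm, ha'.symm⟩

lemma NBt_split {e a h K K' μ Bw : ℕ}
    (hT : PB C (Reg.RTh e a (a + h)) (Reg.RTh e a (a + h)) μ) (hK' : a + h ≤ K')
    (hW : WP C (Reg.win (a + h) K) (Reg.winC e a h K') Bw) :
    NBt C [Reg.RTh e a (a + h), Reg.win (a + h) K] [Reg.winC e a h K'] (μ * Bw) := by
  intro f f' ν
  set S := ((Vs C [Reg.RTh e a (a + h), Reg.win (a + h) K] ×ˢ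
    Vs C [Reg.winC e a h K']).filter (fun q =>
    val C [Reg.RTh e a (a + h), Reg.win (a + h) K] f q.1 +
      val C [Reg.winC e a h K'] f' q.2 = ν)) with hS
  obtain ⟨ν', hν'⟩ := exists_modEq_shift (f [] + f' []) (ν / 2 ^ a) (2 ^ h) (by positivity)
  have hlen : (Reg.RTh e a (a + h)).len C = h := by simp [Reg.len, Reg.top, Reg.bot]
  set V0 := pairs (C.Y (h - C.W e)) (C.Th e) with hV0
  set T := ((V0 ×ˢ V0).filter (fun q => (C.E h (Nat.unpair q.1).1 + (Nat.unpair q.1).2) +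
    (C.E h (Nat.unpair q.2).1 + (Nat.unpair q.2).2) ≡ ν' [MOD 2 ^ h])) with hTd
  have hTc : T.card ≤ μ := by
    have := hT ν'
    rw [hlen] at this
    simpa only [Reg.V, Reg.c, Nat.add_sub_cancel_left] using this
  set F : List ℕ × List ℕ → ℕ × ℕ := fun q => (q.1.headD 0, (Nat.unpair (q.2.headD 0)).1) with hF
  have hmem : ∀ q ∈ S, ∃ u s p, q = ([u, s], [p]) ∧ u ∈ V0 ∧ s ∈ C.TK K ∧
      (Nat.unpair p).1 ∈ V0 ∧ (Nat.unpair p).2 ∈ C.TK K' ∧
      2 ^ a * ((C.E h (Nat.unpair u).1 + (Nat.unpair u).2 + f []) % 2 ^ h) +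
        2 ^ (a + h) * ((s + f [u]) % 2 ^ (K - (a + h))) +
      2 ^ a * (((C.E h (Nat.unpair (Nat.unpair p).1).1 +
        (Nat.unpair (Nat.unpair p).1).2) % 2 ^ h + 2 ^ h * (Nat.unpair p).2 + f' []) %
        2 ^ (K' - a)) = ν := by
    rintro ⟨z, z'⟩ hq
    rw [hS, mem_filter, mem_product] at hq
    obtain ⟨⟨hz, hz'⟩, he⟩ := hq
    obtain ⟨u, s, rfl, hu, hs⟩ := mem_Vs_pair.mp hz
    obtain ⟨p, rfl, hp⟩ := mem_Vs_single.mp hz'
    simp only [Reg.V, Nat.add_sub_cancel_left] at hu hs hp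
    rw [mem_pairs] at hp
    refine ⟨u, s, p, rfl, hu, hs, hp.1, hp.2, ?_⟩
    simp only at he
    rw [val_pair, val_single] at he
    simpa [Reg.bot, Reg.c, Reg.len, Reg.top, Reg.core] using he
  have hmaps : ∀ q ∈ S, F q ∈ T := by
    intro q hq
    obtain ⟨u, s, p, rfl, hu, hs, hp1, hp2, he⟩ := hmem q hq
    simp only [hF, List.headD_cons, hTd, mem_filter, mem_product]
    refine ⟨⟨hu, hp1⟩, ?_⟩
    set A := C.E h (Nat.unpair u).1 + (Nat.unpair u).2
    set A' := C.E h (Nat.unpair (Nat.unpair p).1).1 + (Nat.unpair (Nat.unpair p).1).2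
    have h1 : 2 ^ a * ((A + f []) % 2 ^ h) + 2 ^ a * ((A' + f' []) % 2 ^ h) ≡ ν
        [MOD 2 ^ (a + h)] := by
      rw [← he]
      have e1 : (A' % 2 ^ h + 2 ^ h * (Nat.unpair p).2 + f' []) % 2 ^ (K' - a) ≡
          (A' + f' []) % 2 ^ h [MOD 2 ^ h] := by
        have h2 : (A' % 2 ^ h + 2 ^ h * (Nat.unpair p).2 + f' []) % 2 ^ (K' - a) ≡
            A' % 2 ^ h + 2 ^ h * (Nat.unpair p).2 + f' [] [MOD 2 ^ h] :=
          (Nat.mod_modEq _ _).of_dvd (pow_dvd_pow 2 (by omega))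
        have h3 : A' % 2 ^ h + 2 ^ h * (Nat.unpair p).2 + f' [] ≡ A' + f' [] [MOD 2 ^ h] := by
          refine Nat.ModEq.add_right _ ?_
          unfold Nat.ModEq
          rw [Nat.add_mul_mod_self_left, Nat.mod_mod]
        exact (h2.trans h3).trans (Nat.mod_modEq _ _).symm
      have e2 : 2 ^ a * ((A' % 2 ^ h + 2 ^ h * (Nat.unpair p).2 + f' []) % 2 ^ (K' - a)) ≡
          2 ^ a * ((A' + f' []) % 2 ^ h) [MOD 2 ^ (a + h)] := by
        rw [pow_add]
        exact Nat.ModEq.mul_left' _ e1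
      have e3 : 2 ^ a * ((A + f []) % 2 ^ h) + 2 ^ (a + h) * ((s + f [u]) % 2 ^ (K - (a + h))) ≡
          2 ^ a * ((A + f []) % 2 ^ h) [MOD 2 ^ (a + h)] := by
        unfold Nat.ModEq
        rw [Nat.add_mul_mod_self_left]
      exact (e3.add e2).symm
    have h3 := modEq_sub_of_mul h1
    refine hν' _ ?_
    have h4 : f [] + f' [] + (A + A') = A + f [] + (A' + f' []) := by ring
    rw [h4]
    exact h3
  have hfib : ∀ x ∈ T, (S.filter (fun q => F q = x)).card ≤ Bw := by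
    rintro ⟨u, u'⟩ _
    set c0 := 2 ^ a * ((C.E h (Nat.unpair u).1 + (Nat.unpair u).2 + f []) % 2 ^ h) with hc0
    by_cases hc : c0 ≤ ν
    · refine le_trans ?_ (hW (f [u]) (f' []) (ν - c0))
      refine card_le_card_of_injOn (fun q => (q.1.getD 1 0, q.2.headD 0)) ?_ ?_
      · intro q hq
        rw [mem_coe, mem_filter] at hq
        obtain ⟨hq1, hq2⟩ := hq
        obtain ⟨u1, s, p, rfl, hu, hs, hp1, hp2, he⟩ := hmem q hq1
        simp only [hF, List.headD_cons, Prod.mk.injEq] at hq2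
        obtain ⟨rfl, rfl⟩ := hq2
        rw [mem_coe, mem_filter, mem_product]
        refine ⟨⟨hs, mem_pairs.mpr ⟨hp1, hp2⟩⟩, ?_⟩
        simp only [List.headD_cons, Reg.c, Reg.len, Reg.bot, Reg.top,
          List.getD_cons_succ, List.getD_cons_zero]
        omega
      · intro q hq q' hq' he
        rw [mem_coe, mem_filter] at hq hq'
        obtain ⟨hq1, hq2⟩ := hq
        obtain ⟨hq1', hq2'⟩ := hq'
        obtain ⟨x1, s, p, rfl, -⟩ := hmem q hq1
        obtain ⟨x1', s', p', rfl, -⟩ := hmem q' hq1'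
        simp only [hF, List.headD_cons, Prod.mk.injEq] at hq2 hq2' he
        obtain ⟨he1, he2⟩ := he
        have e1 : x1 = x1' := hq2.1.trans hq2'.1.symm
        have e3 : s = s' := he1
        rw [e1, e3, he2]
    · rw [Finset.filter_eq_empty_iff.mpr]
      · simp
      · intro q hq1 hq2
        obtain ⟨u1, s, p, rfl, hu, hs, hp1, hp2, he⟩ := hmem q hq1
        simp only [hF, List.headD_cons, Prod.mk.injEq] at hq2
        obtain ⟨rfl, rfl⟩ := hq2
        omega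
  calc S.card ≤ Bw * T.card := card_le_mul_card_image_of_maps_to hmaps Bw hfib
    _ ≤ Bw * μ := Nat.mul_le_mul_left _ hTc
    _ = μ * Bw := mul_comm _ _

end Pool.Agent.ETS
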