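import Mathlib
import Pool.Agent.Helper16.ETL.Near4
import Pool.Agent.Helper16.ETL.NearW

/-!
# E-T (MP_12a1af_nt), project T*: the near lemma for the layouts of the schedule
-/

open Finset

namespace Pool.Agent.ETS

open Pool.Agent.Helper29.ETK (Kid kid wb ep Wd av ab ag ak CC Hb nb wcomp)

variable {C : Codes} {c t : ℕ}

lemma toRegs_rest {c t t' : ℕ} {q : Kid × ℕ × ℕ} (hq : IsRest q.1) :
    toRegs c t q = toRegs c t' q := by
  obtain ⟨k, s, e⟩ := q
  cases k with
  | P g => rfl
  | PT g b => exact absurd hq (by simp [IsRest])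
  | R v => exact absurd hq (by simp [IsRest])
  | RT v => exact absurd hq (by simp [IsRest])
  | RTh v => rfl

lemma e1_le {e1 s : ℕ} (h1 : CC c ^ (3 * e1 + 4) ≤ t) (h2 : t ≤ CC c ^ 4 * s) (hc : 1 ≤ c) :
    e1 ≤ ep c s := by
  have hC : 2 ≤ CC c := by
    unfold CC
    calc 2 = 2 ^ 1 := rfl
      _ ≤ 2 ^ c := Nat.pow_le_pow_right (by norm_num) hc
  have h3 : CC c ^ (3 * e1) ≤ s := by
    have : CC c ^ 4 * CC c ^ (3 * e1) ≤ CC c ^ 4 * s := by
      rw [← pow_add]
      calc CC c ^ (4 + 3 * e1) = CC c ^ (3 * e1 + 4) := by ring_nf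
        _ ≤ t := h1
        _ ≤ _ := h2
    exact Nat.le_of_mul_le_mul_left this (by positivity)
  have hs : s ≠ 0 := by
    have : 0 < CC c ^ (3 * e1) := by positivity
    omega
  unfold ep Helper29.ETK.lg
  have h4 : 3 * e1 ≤ Nat.log (CC c) s := Nat.le_log_of_pow_le (by omega) h3
  omega

/-- the regions of the rest runs satisfy the bounds -/
lemma goodRest_runs {e1 μ : ℕ} {β : ℕ → ℕ} (HC : NearCodes c e1 C μ β) (hc : 1 ≤ c)
    (H : KidOK c t) (HS : KidSize c t) (ht : CC c ^ (3 * e1 + 4) ≤ t) {w : ℕ}
    (hw : GoodCut c t w) {q : Kid × ℕ × ℕ} (hq : q ∈ runs (kid c t) w 0) (hr : IsRest q.1) :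
    ∀ r ∈ toRegs c t q, r.bot ≤ r.top C ∧ PB C r r μ := by
  have hrun := isRun_of_mem' _ hq
  obtain ⟨k, s, e⟩ := q
  have hr' := hrun
  obtain ⟨-, h2, h3, h4, h5, -⟩ := hr'
  simp only at h2 h3 h4 h5
  have hwt := hw.1
  intro r hr2
  cases k with
  | P g =>
    have := run_P H hwt hrun
    subst this
    simp only [toRegs, List.mem_singleton] at hr2
    subst hr2
    exact ⟨h2.le, HC.PP _ _ _ h2⟩
  | PT g b => exact absurd hr (by simp [IsRest])
  | R v => exact absurd hr (by simp [IsRest])
  | RT v => exact absurd hr (by simp [IsRest])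
  | RTh v =>
    have h6 := cut_RTh H hw (by omega) (h4 s le_rfl h2)
    have := run_RTh H hwt hrun h6
    subst this
    simp only [toRegs, List.mem_singleton] at hr2
    subst hr2
    have hk := h4 s le_rfl h2
    have hcut : KCut c t s := by
      rcases h5 with h5 | h5
      · exact Or.inl h5
      · exact Or.inr (Or.inr (by rw [hk]; exact h5))
    have hs0 : 0 < s := by
      rcases Nat.eq_zero_or_pos s with h0 | h0
      · rw [h0] at hk
        exact absurd hk (HS.z e).1
      · exact h0
    obtain ⟨d1, d2⟩ := HS.RTh e s (by omega) hk hcut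
    have he : e1 ≤ ep c s := e1_le ht (HS.low s hs0 (by omega) hcut) hc
    have hWs : C.W (ep c s) = Wd c s := HC.W _
    have hd : C.W (ep c s) ∣ e - s := by rw [hWs]; exact Nat.dvd_sub d2 d1
    refine ⟨h2.le, HC.ThTh _ _ _ he ?_ hd⟩
    have := Nat.le_of_dvd (by omega) hd
    omega

/-- kinds below `wb c K'` at the time `K` and the newborn cell -/
lemma kid_below {K K' : ℕ} (H' : KidOK c K') (HN : NearK c K K')
    (hlt : wb c K' < wb c K) : kid c K (wb c K' - 1) ≠ .RTh (wb c K) := by
  intro h
  have h0 := H'.wb0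
  rcases HN.cell with hcell | ⟨g, b, v, σ, σ', -, hσ, -, hA, hA', hout⟩
  · obtain ⟨h1, -⟩ := hcell (wb c K' - 1) (by omega)
    rw [h1] at h
    have := (H'.RTh _ _ (by omega) h).2.1
    omega
  · by_cases hv : wb c K' - 1 < g ∨ v ≤ wb c K' - 1
    · rw [hout _ (by omega) hv] at h
      have := (H'.RTh _ _ (by omega) h).2.1
      omega
    · push Not at hv
      rw [hA.kid _ hv.1 hv.2] at h
      have hv' := hA'.hv
      unfold cellKid at h
      split_ifs at h <;> simp at h <;> omega

lemma rest_eq {K K' u m : ℕ}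
    (h : ∀ s, u ≤ s → s < m → kid c K s = kid c K' s ∧ IsRest (kid c K' s)) :
    (runs (kid c K) m u).flatMap (toRegs c K) = (runs (kid c K') m u).flatMap (toRegs c K') := by
  rw [runs_congr' _ (fun s h1 h2 => (h s h1 h2).1)]
  apply List.flatMap_congr
  intro q hq
  obtain ⟨h1, h2, h3, h4, -⟩ := isRun_of_mem' _ hq
  refine toRegs_rest ?_
  rw [← h4 q.2.1 le_rfl h2]
  exact (h _ h1 (by omega)).2

lemma rest_NB {e1 μ K' u m : ℕ} {β : ℕ → ℕ} (HC : NearCodes c e1 C μ β) (hc : 1 ≤ c)
    (H' : KidOK c K') (HS' : KidSize c K') (hK' : CC c ^ (3 * e1 + 4) ≤ K')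
    (hum : u ≤ m) (hm : m ≤ wb c K') (h1 : IsCut (kid c K') 0 (wb c K') u)
    (h2 : IsCut (kid c K') u (wb c K') m)
    (h : ∀ s, u ≤ s → s < m → IsRest (kid c K' s)) :
    NB C ((runs (kid c K') m u).flatMap (toRegs c K'))
      ((runs (kid c K') m u).flatMap (toRegs c K')) m
      (μ ^ ((runs (kid c K') m u).flatMap (toRegs c K')).length) := by
  have hwb : GoodCut c K' (wb c K') := ⟨le_rfl, Or.inl rfl⟩
  have hmem : ∀ q ∈ runs (kid c K') m u, q ∈ runs (kid c K') (wb c K') 0 :=
    fun q hq => mem_runs_of_cuts hum hm h1 h2 hq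
  refine NB_rest (chain_flatMap _ u m le_rfl hum (fun q hq =>
    chain_toRegs HC.W H' hwb (hmem q hq))) ?_
  intro r hr
  rw [List.mem_flatMap] at hr
  obtain ⟨q, hq, hqr⟩ := hr
  refine goodRest_runs HC hc H' HS' hK' hwb (hmem q hq) ?_ r hqr
  obtain ⟨h3, h4, h5, h6, -⟩ := isRun_of_mem' _ hq
  rw [← h6 q.2.1 le_rfl h4]
  exact h _ h3 (by omega)

/-- **near lemma** for two close times -/
theorem near_layL {e1 μ B Bw K K' : ℕ} {β : ℕ → ℕ} (HC : NearCodes c e1 C μ β) (hc : 1 ≤ c)
    (H : KidOK c K) (H' : KidOK c K') (HS : KidSize c K) (HS' : KidSize c K')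
    (HN : NearK c K K') (hK : CC c ^ (3 * e1 + 4) ≤ K) (hK' : CC c ^ (3 * e1 + 4) ≤ K')
    (hβ : ∀ e, e ≤ ep c K + 1 → β e ≤ B) (hB1 : 1 ≤ B)
    (hW : WP C (winReg c K) (winReg c K') Bw) :
    NBt C (layL c K) (layL c K') (μ ^ ((body c K').length + 3) * B * Bw) := by
  have hμ := HC.one
  have hwb : GoodCut c K' (wb c K') := ⟨le_rfl, Or.inl rfl⟩
  have hwle : wb c K' ≤ wb c K := by
    rcases HN.win with ⟨h, -⟩ | ⟨h, -⟩ <;> omega
  have hwK : GoodCut c K (wb c K') := by
    refine ⟨hwle, ?_⟩
    rcases HN.win with ⟨h, -⟩ | ⟨h, -, -, h4, -⟩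
    · exact Or.inl h.symm
    · by_cases h0 : nb c (wb c K') = 0
      · left; omega
      · right; right
        rw [h4 (wb c K') le_rfl (by omega)]
        exact kid_below H' HN (by omega)
  -- the window part
  have hwin : ∃ N : List Reg, body c K = (runs (kid c K) (wb c K') 0).flatMap (toRegs c K) ++ N ∧
      NBt C (N ++ [winReg c K]) [winReg c K'] (μ * Bw) ∧ Above (wb c K') (N ++ [winReg c K]) := by
    rcases Nat.eq_or_lt_of_le hwle with heq | hlt
    · refine ⟨[], ?_, ?_, ?_⟩
      · unfold body; rw [heq, List.append_nil]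
      · exact (NBt_of_WP hW).mono (by nlinarith)
      · rw [List.nil_append]
        refine above_single ?_
        unfold winReg; split_ifs <;> simp only [Reg.bot] <;> omega
    · obtain ⟨h1, h2, h3, h4, h6⟩ : wb c K = wb c K' + nb c (wb c K') ∧ wcomp c K' ∧
          ¬ wcomp c K ∧ (∀ s, wb c K' ≤ s → s < wb c K → kid c K s = .RTh (wb c K)) ∧
          wb c K' + nb c (wb c K') ≤ K' := by
        rcases HN.win with ⟨h, -⟩ | h
        · omega
        · exact h
      have hcut : IsCut (kid c K) 0 (wb c K) (wb c K') := by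
        right; right
        refine ⟨H'.wb0, ?_⟩
        rw [h4 (wb c K') le_rfl hlt]
        exact kid_below H' HN hlt
      have hruns : runs (kid c K) (wb c K) (wb c K') = [(.RTh (wb c K), wb c K', wb c K)] :=
        runs_const _ hlt h4
      have hbK : body c K = (runs (kid c K) (wb c K') 0).flatMap (toRegs c K) ++
          [Reg.RTh (ep c (wb c K')) (wb c K') (wb c K)] := by
        unfold body
        rw [runs_split' _ (Nat.zero_le _) hlt.le hcut, List.flatMap_append, hruns]
        rfl
      refine ⟨_, hbK, ?_, ?_⟩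
      · have e1' : winReg c K = Reg.win (wb c K) K := by unfold winReg; rw [if_neg h3]
        have e2' : winReg c K' = Reg.winC (ep c (wb c K')) (wb c K') (nb c (wb c K')) K' := by
          unfold winReg; rw [if_pos h2]
        rw [e1', e2'] at hW ⊢
        rw [h1] at hW ⊢
        -- the new cell
        have hk := h4 (wb c K') le_rfl hlt
        have hKC : KCut c K (wb c K') := by
          right; right
          rw [hk]; exact kid_below H' HN hlt
        obtain ⟨d1, d2⟩ := HS.RTh (wb c K) (wb c K') hlt hk hKC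
        have he : e1 ≤ ep c (wb c K') := e1_le hK (HS.low _ H'.wb0 hwle hKC) hc
        have hWs : C.W (ep c (wb c K')) = Wd c (wb c K') := HC.W _
        have hd : C.W (ep c (wb c K')) ∣ wb c K - wb c K' := by
          rw [hWs]; exact Nat.dvd_sub d2 d1
        have hle := Nat.le_of_dvd (by omega) hd
        have hTT := HC.ThTh (ep c (wb c K')) (wb c K') (wb c K) he (by omega) hd
        rw [h1] at hTT
        exact NBt_split hTT h6 hW
      · intro r hr
        rw [List.mem_append, List.mem_singleton, List.mem_singleton] at hr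
        rcases hr with rfl | rfl
        · exact le_rfl
        · unfold winReg; split_ifs <;> simp only [Reg.bot] <;> omega
  obtain ⟨N, hN1, hN2, hN3⟩ := hwin
  -- the part below `wb c K'`
  have hbody : ∃ m : ℕ, NB C ((runs (kid c K) (wb c K') 0).flatMap (toRegs c K))
      (body c K') (wb c K') (μ ^ m * B) ∧ m ≤ (body c K').length + 2 := by
    rcases HN.cell with hcell | ⟨g, b, v, σ, σ', hadj, hσ, hσ', hA, hA', hout⟩
    · -- rest
      refine ⟨(body c K').length, ?_, by omega⟩
      have e1' := rest_eq (c := c) (K := K) (K' := K') (u := 0) (m := wb c K')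
        (fun s _ h2 => hcell s h2)
      unfold body
      rw [e1']
      refine (rest_NB HC hc H' HS' hK' (u := 0) (m := wb c K') (Nat.zero_le _) le_rfl
        (Or.inl rfl) (Or.inr (Or.inl rfl)) (fun s _ h2 => (hcell s h2).2)).mono ?_
      exact Nat.le_mul_of_pos_right _ hB1
    · have hgv : g ≤ v := by have := hA.hg; have := hA.hb; omega
      have hvw : v ≤ wb c K' := hA'.hv
      have cut1 : ∀ {T : ℕ}, CellAt c T g b v σ ∨ CellAt c T g b v σ' →
          IsCut (kid c T) 0 (wb c K') g := by
        intro T hT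
        have h1 : g = 0 ∨ kid c T (g - 1) ≠ kid c T g := by
          rcases hT with hT | hT
          · exact hT.cutg
          · exact hT.cutg
        rcases h1 with h1 | h1
        · exact Or.inl h1
        · rcases Nat.eq_zero_or_pos g with h0 | h0
          · exact Or.inl h0
          · exact Or.inr (Or.inr ⟨h0, h1⟩)
      have cut2 : IsCut (kid c K) g (wb c K') v := by
        have hb := hA.hb
        have := Wd_pos c b
        rcases hA.cutv with h1 | h1
        · right; left; omega
        · exact Or.inr (Or.inr ⟨by omega, h1⟩)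
      have cut2' : IsCut (kid c K') g (wb c K') v := by
        have hb := hA.hb
        have := Wd_pos c b
        rcases hA'.cutv with h1 | h1
        · right; left; omega
        · exact Or.inr (Or.inr ⟨by omega, h1⟩)
      have cut3' : IsCut (kid c K') 0 (wb c K') v := by
        rcases cut2' with h | h | h
        · have hb := hA.hb
          have := Wd_pos c b
          have := hA.hg
          omega
        · exact Or.inr (Or.inl h)
        · exact Or.inr (Or.inr h)
      have s1 : (runs (kid c K) (wb c K') 0).flatMap (toRegs c K) =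
          (runs (kid c K) g 0).flatMap (toRegs c K) ++
            (cellRegs c g b v σ ++ (runs (kid c K) (wb c K') v).flatMap (toRegs c K)) := by
        rw [runs_split' _ (Nat.zero_le _) (hgv.trans hvw) (cut1 (Or.inl hA)),
          runs_split' _ hgv hvw cut2, List.flatMap_append, List.flatMap_append, cell_regs hA hσ]
      have s2 : body c K' =
          (runs (kid c K') g 0).flatMap (toRegs c K') ++
            (cellRegs c g b v σ' ++ (runs (kid c K') (wb c K') v).flatMap (toRegs c K')) := by
        unfold body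
        rw [runs_split' _ (Nat.zero_le _) (hgv.trans hvw) (cut1 (Or.inr hA')),
          runs_split' _ hgv hvw cut2', List.flatMap_append, List.flatMap_append,
          cell_regs hA' hσ']
      have r1 := rest_eq (c := c) (K := K) (K' := K') (u := 0) (m := g)
        (fun s _ h2 => ⟨hout s (by omega) (Or.inl h2), hA'.out s (by omega) (Or.inl h2)⟩)
      have r2 := rest_eq (c := c) (K := K) (K' := K') (u := v) (m := wb c K')
        (fun s h1 h2 => ⟨hout s h2 (Or.inr h1), hA'.out s h2 (Or.inr h1)⟩)
      have n1 := rest_NB HC hc H' HS' hK' (u := 0) (m := g) (Nat.zero_le _) (hgv.trans hvw)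
        (Or.inl rfl) (by
          rcases cut1 (T := K') (Or.inr hA') with h | h | h
          · exact Or.inl h
          · exact Or.inr (Or.inl h)
          · exact Or.inr (Or.inr h)) (fun s _ h2 => hA'.out s (by omega) (Or.inl h2))
      have n2 := rest_NB HC hc H' HS' hK' (u := v) (m := wb c K') hvw le_rfl cut3'
        (Or.inr (Or.inl rfl)) (fun s h1 h2 => hA'.out s h2 (Or.inr h1))
      have hbK : b ≤ K := by have := hA.hb; have := hA.hv; have := H.wbt; omega
      have heb : e1 ≤ ep c b := e1_le hK hA.low hc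
      have hWp := Wd_pos c b
      have hmono : ∀ x y, x ≤ y → ep c x ≤ ep c y := by
        intro x y hxy
        unfold ep Helper29.ETK.lg
        have := Nat.log_mono_right (b := CC c) hxy
        omega
      have heb' : e1 ≤ ep c (b + Wd c b) := heb.trans (hmono _ _ (by omega))
      have n3 := NB_cell HC hA hσ hσ' hadj heb heb' (hβ _ (by
        have := hmono _ _ hbK; omega)) (hβ _ (by
        have h1 : b + Wd c b ≤ K := by have := hA.hb; have := hA.hv; have := H.wbt; omega
        have := hmono _ _ h1; omega))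
      have hcellAb : ∀ σ, Above g (cellRegs c g b v σ) := by
        intro σ r hr
        have hg := hA.hg
        unfold cellRegs Pl at hr
        split_ifs at hr <;> simp at hr <;> (try rcases hr with rfl | rfl) <;>
          (try subst hr) <;> simp [Reg.bot] <;> omega
      have hch : ∀ {u m : ℕ}, u ≤ m → m ≤ wb c K' → IsCut (kid c K') 0 (wb c K') u →
          IsCut (kid c K') u (wb c K') m →
          Chain C u ((runs (kid c K') m u).flatMap (toRegs c K')) m := by
        intro u m h1 h2 h3 h4
        exact chain_flatMap _ u m le_rfl h1 (fun q hq =>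
          chain_toRegs HC.W H' hwb (mem_runs_of_cuts h1 h2 h3 h4 hq))
      have hZ := (hch hvw le_rfl cut3' (Or.inr (Or.inl rfl))).above
      set A := (runs (kid c K') g 0).flatMap (toRegs c K') with hAdef
      set Z := (runs (kid c K') (wb c K') v).flatMap (toRegs c K') with hZdef
      rw [s1, s2, r1, r2]
      refine ⟨A.length + (2 + Z.length), ?_, ?_⟩
      · have n4 := NB.append n3 n2 hvw hZ hZ
        have hab : ∀ σ, Above g (cellRegs c g b v σ ++ Z) := by
          intro σ r hr
          rcases List.mem_append.mp hr with hr | hr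
          · exact hcellAb σ r hr
          · exact hgv.trans (hZ r hr)
        have n5 := NB.append n1 n4 (hgv.trans hvw) (hab σ) (hab σ')
        refine n5.mono (le_of_eq ?_)
        rw [pow_add, pow_add]
        ring
      · rw [List.length_append, List.length_append]
        omega
  obtain ⟨m, hm1, hm2⟩ := hbody
  have := NB.append_top hm1 hN2 hN3 (A2' := [winReg c K']) (by
    refine above_single ?_
    unfold winReg; split_ifs <;> simp only [Reg.bot] <;> omega)
  unfold layL
  rw [hN1, List.append_assoc]
  refine this.mono ?_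
  calc μ ^ m * B * (μ * Bw) = μ ^ (m + 1) * (B * Bw) := by ring
    _ ≤ μ ^ ((body c K').length + 3) * (B * Bw) :=
        Nat.mul_le_mul_right _ (Nat.pow_le_pow_right hμ (by omega))
    _ = _ := by ring

end Pool.Agent.ETS
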