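import Mathlib
import Pool.Agent.Helper16.ETL.Near5
import Pool.Agent.ETS.Red

/-!
# E-T (MP_12a1af_nt), project T*: the properties of the layouts which the frame theorem needs
-/

open Finset

namespace Pool.Agent.ETS

open Pool.Agent.Helper29.ETK (Kid kid wb ep Wd av ab ag ak CC Hb nb wcomp)

variable {C : Codes} {c t : ℕ}

/-- size and distinct contents -/
def Reg.Good (C : Codes) (r : Reg) : Prop :=
  (r.V C).card ^ 2 ≤ 2 ^ (r.len C) ∧ r.Inj C

/-- the code properties which concern one region, below the window -/
structure RegCodes (c e1 : ℕ) (C : Codes) : Prop where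
  W : ∀ e, C.W e = CC c ^ e
  P : ∀ p f b, f ≤ b → (Reg.P p f b).Good C
  R : ∀ b v, b ≤ v → (Reg.R b v).Good C
  RT : ∀ e b v, e1 ≤ e → b + C.W e ≤ v → C.W e ∣ v - b → (Reg.RT e b v).Good C
  RTh : ∀ e b v, e1 ≤ e → b + C.W e ≤ v → C.W e ∣ v - b → (Reg.RTh e b v).Good C
  PT : ∀ g b, e1 ≤ ep c b → g ≤ b → Wd c b ∣ b → Wd c b ∣ g → (g = 0 ∨ ep c g = ep c b) →
    (Reg.PT (pidx c g) (ep c b) g b).Good C

/-- every region below the window comes from a run; what is known about it -/
lemma good_of_mem_body {e1 : ℕ} (HR : RegCodes c e1 C) (hc : 1 ≤ c) (H : KidOK c t)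
    (HS : KidSize c t) (ht : CC c ^ (3 * e1 + 4) ≤ t) {r : Reg} (hr : r ∈ body c t) :
    r.Good C := by
  unfold body at hr
  rw [List.mem_flatMap] at hr
  obtain ⟨⟨k, s, e⟩, hq, hr⟩ := hr
  have hw : GoodCut c t (wb c t) := ⟨le_rfl, Or.inl rfl⟩
  have hrun := isRun_of_mem' _ hq
  have hr' := hrun
  obtain ⟨-, h2, h3, h4, h5, -⟩ := hr'
  simp only at h2 h3 h4 h5
  have hk := h4 s le_rfl h2
  have hcut : KCut c t s := by
    rcases h5 with h5 | h5
    · exact Or.inl h5
    · exact Or.inr (Or.inr (by rw [hk]; exact h5))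
  cases k with
  | P g =>
    have := run_P H le_rfl hrun
    subst this
    simp only [toRegs, List.mem_singleton] at hr
    subst hr
    exact HR.P _ _ _ h2.le
  | PT g b =>
    obtain ⟨h7, h8, h9, h10, h11, h12, h13⟩ := H.PT s g b (by omega) hk
    obtain ⟨d1, d2, d3, d4⟩ := HS.PT g b s (by omega) hk
    have hW := Wd_pos c b
    have hkb := h12 b h7 (by omega)
    have hep := HS.ep g b (by omega) (Or.inr ⟨b, hkb⟩)
    have he := e1_le ht d4 hc
    simp only [toRegs] at hr
    split_ifs at hr
    · rw [List.mem_cons, List.mem_singleton] at hr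
      rcases hr with rfl | rfl
      · exact HR.PT g b he h7 d1 d2 hep
      · exact HR.R _ _ le_rfl
    · rw [List.mem_singleton] at hr
      subst hr
      exact HR.PT g b he h7 d1 d2 hep
  | R v =>
    have h6 := (H.R s v (by omega) hk).1
    simp only [toRegs, List.mem_singleton] at hr
    subst hr
    exact HR.R _ _ h6.le
  | RT v =>
    have h6 := (H.RT s v (by omega) hk).1
    have hs0 : 0 < s := by
      rcases Nat.eq_zero_or_pos s with h0 | h0
      · rw [h0] at hk
        exact absurd hk (HS.z v).2
      · exact h0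
    obtain ⟨d1, d2⟩ := HS.RT v s (by omega) hk hcut
    have he : e1 ≤ ep c s := e1_le ht (HS.low s hs0 (by omega) hcut) hc
    have hWs : C.W (ep c s) = Wd c s := HR.W _
    have hd : C.W (ep c s) ∣ v - s := by rw [hWs]; exact Nat.dvd_sub d2 d1
    have hle := Nat.le_of_dvd (by omega) hd
    simp only [toRegs, List.mem_singleton] at hr
    subst hr
    exact HR.RT _ _ _ he (by omega) hd
  | RTh v =>
    have h6 := (H.RTh s v (by omega) hk).1
    have hs0 : 0 < s := by
      rcases Nat.eq_zero_or_pos s with h0 | h0
      · rw [h0] at hk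
        exact absurd hk (HS.z v).1
      · exact h0
    obtain ⟨d1, d2⟩ := HS.RTh v s (by omega) hk hcut
    have he : e1 ≤ ep c s := e1_le ht (HS.low s hs0 (by omega) hcut) hc
    have hWs : C.W (ep c s) = Wd c s := HR.W _
    have hd : C.W (ep c s) ∣ v - s := by rw [hWs]; exact Nat.dvd_sub d2 d1
    have hle := Nat.le_of_dvd (by omega) hd
    simp only [toRegs, List.mem_singleton] at hr
    subst hr
    exact HR.RTh _ _ _ he (by omega) hd

lemma good_of_mem_layL {e1 : ℕ} (HR : RegCodes c e1 C) (hc : 1 ≤ c) (H : KidOK c t)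
    (HS : KidSize c t) (ht : CC c ^ (3 * e1 + 4) ≤ t) (hw : (winReg c t).Good C) {r : Reg}
    (hr : r ∈ layL c t) : r.Good C := by
  unfold layL at hr
  rw [List.mem_append, List.mem_singleton] at hr
  rcases hr with hr | rfl
  · exact good_of_mem_body HR hc H HS ht hr
  · exact hw

/-- the regions `P^T` of a layout -/
lemma ptle_layL (H : KidOK c t) {p e f b : ℕ} (h : Reg.PT p e f b ∈ layL c t) : f ≤ b := by
  unfold layL body at h
  rw [List.mem_append, List.mem_singleton] at h
  rcases h with h | h
  · rw [List.mem_flatMap] at h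
    obtain ⟨⟨k, s, e'⟩, hq, hr⟩ := h
    obtain ⟨-, h2, h3, h4, h5, -⟩ := isRun_of_mem' _ hq
    simp only at h2 h3 h4 h5
    cases k with
    | P g => simp [toRegs] at hr
    | PT g b' =>
      obtain ⟨h7, -⟩ := H.PT s g b' (by omega) (h4 s le_rfl h2)
      simp only [toRegs] at hr
      split_ifs at hr <;> simp at hr <;> omega
    | R v => simp [toRegs] at hr
    | RT v => simp [toRegs] at hr
    | RTh v => simp [toRegs] at hr
  · unfold winReg at h
    split_ifs at h <;> simp at h

/-- `P^T` regions are followed by their `R` region -/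
lemma isChain_aux (hW : ∀ e, C.W e = CC c ^ e) (H : KidOK c t) : ∀ (n u : ℕ), wb c t - u ≤ n →
    u ≤ wb c t → (∀ q ∈ runs (kid c t) (wb c t) u, q ∈ runs (kid c t) (wb c t) 0) →
    List.IsChain (Follows C) ((runs (kid c t) (wb c t) u).flatMap (toRegs c t) ++ [winReg c t])
  | 0, u, hn, hu, _ => by
    rw [runs_of_le _ (by omega)]
    exact List.isChain_singleton _
  | n + 1, u, hn, hu, hmem => by
    rcases Nat.eq_or_lt_of_le hu with rfl | hlt
    · rw [runs_of_le _ le_rfl]
      exact List.isChain_singleton _
    have h3 := lt_rend (kid c t) u (wb c t)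
    have h4 := rend_le (kid c t) hlt
    rw [runs_of_lt _ hlt] at hmem ⊢
    have ih := isChain_aux hW H n (rend (kid c t) u (wb c t)) (by omega) h4
      (fun q hq => hmem q (List.mem_cons_of_mem _ hq))
    have hq := hmem _ List.mem_cons_self
    have hrun := isRun_of_mem' _ hq
    rw [List.flatMap_cons, List.append_assoc]
    set rest := (runs (kid c t) (wb c t) (rend (kid c t) u (wb c t))).flatMap (toRegs c t) ++
      [winReg c t] with hrest
    have hcons : ∀ r : Reg, (∀ r1, Follows C r r1) → List.IsChain (Follows C) ([r] ++ rest) := by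
      intro r hr
      rw [List.singleton_append, List.isChain_cons]
      exact ⟨fun y _ => hr y, ih⟩
    cases hk : kid c t u with
    | P g => exact hcons _ (fun _ => trivial)
    | R v => exact hcons _ (fun _ => trivial)
    | RT v => exact hcons _ (fun _ => trivial)
    | RTh v => exact hcons _ (fun _ => trivial)
    | PT g b =>
      rw [hk] at hrun
      obtain ⟨h7, h8, h9, h10, h11, h12, h13⟩ := H.PT u g b (by omega) hk
      obtain ⟨hs, he⟩ := run_PT H le_rfl hrun (by omega)
      simp only [toRegs]
      split_ifs with hav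
      · have h14 := hcons (Reg.R (b + Wd c b) (b + Wd c b)) (fun _ => trivial)
        rw [List.cons_append, List.isChain_cons]
        refine ⟨fun y hy => ?_, h14⟩
        simp only [List.cons_append, List.nil_append, List.head?_cons, Option.mem_def,
          Option.some.injEq] at hy
        subst hy
        exact ⟨b + Wd c b, by rw [pow_ep hW]⟩
      · rw [List.singleton_append, List.isChain_cons]
        refine ⟨fun y hy => ?_, ih⟩
        have hlt2 : rend (kid c t) u (wb c t) < wb c t := by omega
        have hk2 : kid c t (rend (kid c t) u (wb c t)) = .R (av c t) := by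
          rw [he]; exact h13 _ le_rfl (by omega)
        rw [hrest, runs_of_lt _ hlt2, hk2] at hy
        simp only [List.flatMap_cons, toRegs, List.cons_append, List.nil_append,
          List.head?_cons, Option.mem_def, Option.some.injEq] at hy
        subst hy
        refine ⟨av c t, ?_⟩
        rw [pow_ep hW, he]

theorem isChain_layL (hW : ∀ e, C.W e = CC c ^ e) (H : KidOK c t) :
    List.IsChain (Follows C) (layL c t) :=
  isChain_aux hW H _ 0 le_rfl (Nat.zero_le _) (fun _ hq => hq)

lemma body_ne_nil (H : KidOK c t) : body c t ≠ [] := by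
  unfold body
  rw [runs_of_lt _ H.wb0, List.flatMap_cons]
  intro h
  have h1 := (List.append_eq_nil_iff.mp h).1
  cases hk : kid c t 0 with
  | P g => rw [hk] at h1; simp [toRegs] at h1
  | R v => rw [hk] at h1; simp [toRegs] at h1
  | RT v => rw [hk] at h1; simp [toRegs] at h1
  | RTh v => rw [hk] at h1; simp [toRegs] at h1
  | PT g b => rw [hk] at h1; simp only [toRegs] at h1; split_ifs at h1 <;> simp at h1

lemma len2_layL (H : KidOK c t) : 2 ≤ (layL c t).length := by
  unfold layL
  rw [List.length_append, List.length_singleton]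
  have := List.length_pos_of_ne_nil (body_ne_nil H)
  omega

lemma last_layL {r : Reg} (h : (layL c t)[(layL c t).length - 1]? = some r) :
    r = winReg c t := by
  unfold layL at h
  simp only [List.length_append, List.length_singleton, Nat.add_sub_cancel] at h
  rw [List.getElem?_append_right le_rfl] at h
  simpa using h.symm

lemma winReg_bot : (winReg c t).bot = wb c t := by
  unfold winReg
  split_ifs <;> rfl

lemma winReg_top : (winReg c t).top C = t := by
  unfold winReg
  split_ifs <;> rfl

lemma wb_mono {K K' : ℕ} (h : K' ≤ K) : wb c K' ≤ wb c K := by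
  unfold wb
  exact Nat.findGreatest_mono (fun w hw => ⟨hw.1, hw.2.1, hw.2.2.trans (Nat.add_le_add_right h _)⟩) h

/-- consecutive regions -/
lemma fol_layL (hW : ∀ e, C.W e = CC c ^ e) (H : KidOK c t) {j : ℕ} {r0 r1 : Reg}
    (h0 : (layL c t)[j]? = some r0) (h1 : (layL c t)[j + 1]? = some r1) : Follows C r0 r1 := by
  have h := isChain_layL hW H (C := C)
  rw [List.isChain_iff_getElem] at h
  obtain ⟨hj, rfl⟩ := List.getElem?_eq_some_iff.mp h0
  obtain ⟨hj', rfl⟩ := List.getElem?_eq_some_iff.mp h1
  exact h j hj'

lemma notPT_layL (hW : ∀ e, C.W e = CC c ^ e) (H : KidOK c t) {p e f b : ℕ}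
    (h : (layL c t)[(layL c t).length - 2]? = some (Reg.PT p e f b)) : False := by
  have hl := len2_layL H
  obtain ⟨r, hr⟩ : ∃ r, (layL c t)[(layL c t).length - 1]? = some r := by
    rw [List.getElem?_eq_getElem (by omega)]
    exact ⟨_, rfl⟩
  have e : (layL c t).length - 2 + 1 = (layL c t).length - 1 := by omega
  have h1 := fol_layL (C := C) hW H h (by rw [e]; exact hr)
  rw [last_layL hr] at h1
  obtain ⟨v, hv⟩ := h1
  unfold winReg at hv
  split_ifs at hv <;> simp at hv

lemma length_toRegs (q : Kid × ℕ × ℕ) : (toRegs c t q).length ≤ 2 := by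
  obtain ⟨k, s, e⟩ := q
  cases k <;> simp only [toRegs] <;> (try split_ifs) <;> simp

lemma length_layL_le : (layL c t).length ≤ 2 * (runs (kid c t) (wb c t) 0).length + 1 := by
  unfold layL body
  rw [List.length_append, List.length_singleton, List.length_flatMap]
  have : ∀ l : List (Kid × ℕ × ℕ), (l.map (fun q => (toRegs c t q).length)).sum ≤ 2 * l.length := by
    intro l
    induction l with
    | nil => simp
    | cons q l ih =>
      rw [List.map_cons, List.sum_cons, List.length_cons]
      have := length_toRegs (c := c) (t := t) q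
      omega
  have := this (runs (kid c t) (wb c t) 0)
  omega

end Pool.Agent.ETS
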